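import Pool.Agent.Lib.MP_8fffab_lc_LP2.Slack
import Pool.Agent.Lib.MP_8fffab_lc_MC.Num

/-!
# Large `k`
-/

set_option autoImplicit false

open Filter Topology

namespace SetCoverLPF

theorem eventually_lt {η c : ℝ} (hη : 0 < η) (hc : 0 < c) : ∃ N : ℕ, ∀ n ≥ N,
    (2 : ℝ) ^ ((1 - η) * n) + 1 < c * 2 ^ n / (n + 1 : ℕ) := by
  set x : ℝ := (2 : ℝ) ^ (-η) with hx
  have hx0 : 0 < x := Real.rpow_pos_of_pos two_pos _
  have hx1 : x < 1 := Real.rpow_lt_one_of_one_lt_of_neg one_lt_two (by linarith)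
  have h1 : ∀ y : ℝ, 0 ≤ y → y < 1 → Tendsto (fun n : ℕ => ((n : ℝ) + 1) * y ^ n) atTop (𝓝 0) := by
    intro y hy0 hy1
    have e1 := tendsto_self_mul_const_pow_of_lt_one hy0 hy1
    have e2 := tendsto_pow_atTop_nhds_zero_of_lt_one hy0 hy1
    have e3 := e1.add e2
    rw [add_zero] at e3
    refine e3.congr fun n => ?_
    ring
  have h2 := (h1 x hx0.le hx1).add (h1 (1 / 2) (by norm_num) (by norm_num))
  rw [add_zero] at h2
  obtain ⟨N, hN⟩ := eventually_atTop.1 ((tendsto_order.1 h2).2 c hc)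
  refine ⟨N, fun n hn => ?_⟩
  have h3 := hN n hn
  have hn1 : (0 : ℝ) < (n + 1 : ℕ) := by positivity
  rw [lt_div_iff₀ hn1]
  have h4 : (2 : ℝ) ^ ((1 - η) * n) = 2 ^ n * x ^ n := by
    rw [hx, ← Real.rpow_natCast (2 ^ (-η)), ← Real.rpow_mul two_pos.le, ← Real.rpow_natCast 2 n,
      ← Real.rpow_add two_pos]
    congr 1
    ring
  have h5 : (1 : ℝ) = 2 ^ n * (1 / 2) ^ n := by
    rw [← mul_pow]
    norm_num
  have h6 : ((2 : ℝ) ^ ((1 - η) * n) + 1) * (n + 1 : ℕ) =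
      2 ^ n * (((n : ℝ) + 1) * x ^ n + ((n : ℝ) + 1) * (1 / 2) ^ n) := by
    rw [h4]
    push_cast
    linear_combination ((n : ℝ) + 1) * h5
  rw [h6, mul_comm c]
  exact mul_lt_mul_of_pos_left h3 (by positivity)

/-- For large `k` the number of inequalities is not `b ^ n` times a polynomial of the size. -/
theorem main_b (b : ℝ) (hb0 : 0 ≤ b) (hb : b < 2) (C : ℕ) : ∃ k₀ : ℕ, ∀ k ≥ k₀,
    ∀ ε : ℝ, 0 < ε → ∃ h₀ : ℕ, ∀ h ≥ h₀, ∀ r : ℕ, Nonempty (LPFormulation k h ε r) →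
      b ^ (k * h) * ((k * h : ℕ) * ((k * h).choose h : ℝ)) ^ C < r := by
  obtain ⟨η, hη, k₁, hk₁, hnum⟩ := SetCoverMono.num_bound b hb hb0 C
  refine ⟨max k₁ 3, fun k hk ε hε => ?_⟩
  have hk1 : k₁ ≤ k := (le_max_left _ _).trans hk
  have hk3 : 3 ≤ k := (le_max_right _ _).trans hk
  obtain ⟨n₁, hn₁⟩ := hnum k hk1
  obtain ⟨c, hc, t, hlow⟩ := lower k hk3
  obtain ⟨N, hN⟩ := eventually_lt (η := η) (c := c * ε ^ t) hη (by positivity)
  refine ⟨max (max n₁ N) 1, fun h hh r hQ => ?_⟩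
  have hh1 : 1 ≤ h := (le_max_right _ _).trans hh
  have hh2 : max n₁ N ≤ h := (le_max_left _ _).trans hh
  have hkh : h ≤ k * h := Nat.le_mul_of_pos_left h (by omega)
  have e1 := hn₁ (k * h) (((le_max_left _ _).trans hh2).trans hkh)
  have e2 := hN (k * h) (((le_max_right _ _).trans hh2).trans hkh)
  have e3 := hlow h hh1 ε hε r hQ
  rw [Nat.mul_div_cancel_left h (by omega : 0 < k)] at e1
  have e4 : ((k * h : ℕ) : ℝ) = (k : ℝ) * (h : ℝ) := by push_cast; ring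
  have e5 : b ^ (k * h) * ((k * h : ℕ) * ((k * h).choose h : ℝ)) ^ C =
      b ^ (k * h) * (((k * h).choose h : ℝ) * (k * h : ℕ)) ^ C := by
    rw [mul_comm ((k * h : ℕ) : ℝ)]
  rw [e5]
  rw [← e4] at e1
  linarith

end SetCoverLPF
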