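import Pool.Agent.Lib.MP_8fffab_lc_LP2.Dual
import Pool.Agent.Lib.MP_8fffab_lc_LP2.Count
import Pool.Agent.Lib.MP_8fffab_lc_LP2.Orth

/-!
# One rectangle
-/

set_option autoImplicit false

open Finset

namespace SetCoverLPF

/-- the characters of small support with a large coefficient -/
noncomputable def Big {n k p : ℕ} [NeZero p] (D : ℕ) (θ : ℝ) (a : (Fin n → ZMod p) → ℝ)
    (ρ : Fin n → Fin k) : Finset (Fin k → ZMod p) :=
  (Lam k p D).filter fun α => θ * ∑ f, a f ≤ ‖coef a (α ∘ ρ)‖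

/-- the union of the supports of the large characters -/
noncomputable def Jun {n k p : ℕ} [NeZero p] (D : ℕ) (θ : ℝ) (a : (Fin n → ZMod p) → ℝ)
    (ρ : Fin n → Fin k) : Finset (Fin k) :=
  (Big D θ a ρ).biUnion supp

theorem mem_Big {n k p : ℕ} [NeZero p] {D : ℕ} {θ : ℝ} {a : (Fin n → ZMod p) → ℝ}
    {ρ : Fin n → Fin k} {α : Fin k → ZMod p} :
    α ∈ Big D θ a ρ ↔ α ∈ Lam k p D ∧ θ * ∑ f, a f ≤ ‖coef a (α ∘ ρ)‖ := by
  simp [Big]

theorem trivial_bound {n k p : ℕ} [NeZero p] (D : ℕ) (a : (Fin n → ZMod p) → ℝ)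
    (h0 : ∀ f, 0 ≤ a f) (ρ : Fin n → Fin k) :
    -((Lam k p D).card * ∑ f, a f) ≤ (∑ α ∈ Lam k p D, coef a (α ∘ ρ)).re := by
  have h1 : ‖∑ α ∈ Lam k p D, coef a (α ∘ ρ)‖ ≤ (Lam k p D).card * ∑ f, a f := by
    refine (norm_sum_le _ _).trans ?_
    rw [← nsmul_eq_mul]
    exact sum_le_card_nsmul _ _ _ fun α _ => norm_coef_le a h0 _
  have h2 := Complex.abs_re_le_norm (∑ α ∈ Lam k p D, coef a (α ∘ ρ))
  have h3 := neg_abs_le (∑ α ∈ Lam k p D, coef a (α ∘ ρ)).re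
  linarith

theorem good_bound {n k p : ℕ} [NeZero p] (D : ℕ) {θ : ℝ} (hθ : 0 ≤ θ)
    (a : (Fin n → ZMod p) → ℝ) (h0 : ∀ f, 0 ≤ a f) (ρ : Fin n → Fin k)
    (hJ : (Jun D θ a ρ).card < D) :
    -((Lam k p D).card * (θ * ∑ f, a f)) ≤ (∑ α ∈ Lam k p D, coef a (α ∘ ρ)).re := by
  classical
  set J := Jun D θ a ρ with hJd
  rw [← sum_filter_add_sum_filter_not (Lam k p D) (fun α => supp α ⊆ J), Complex.add_re]
  have h1 : (Lam k p D).filter (fun α => supp α ⊆ J) = univ.filter fun α => supp α ⊆ J := by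
    ext α
    simp only [mem_filter, mem_univ, true_and, and_iff_right_iff_imp]
    intro h
    rw [mem_Lam]
    exact lt_of_le_of_lt (card_le_card h) hJ
  have h2 : 0 ≤ (∑ α ∈ (Lam k p D).filter (fun α => supp α ⊆ J), coef a (α ∘ ρ)).re := by
    rw [h1]
    simp only [coef]
    rw [sum_comm, Complex.re_sum]
    refine sum_nonneg fun f _ => ?_
    rw [← mul_sum, Complex.re_ofReal_mul]
    refine mul_nonneg (h0 f) ?_
    have := re_sum_nonneg J (part ρ f)
    simp only [← dot_comp] at this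
    exact this
  have h3 : ‖∑ α ∈ (Lam k p D).filter (fun α => ¬ supp α ⊆ J), coef a (α ∘ ρ)‖ ≤
      (Lam k p D).card * (θ * ∑ f, a f) := by
    have hμ : 0 ≤ θ * ∑ f, a f := mul_nonneg hθ (sum_nonneg fun f _ => h0 f)
    refine (norm_sum_le _ _).trans ?_
    have h4 : ∑ α ∈ (Lam k p D).filter (fun α => ¬ supp α ⊆ J), ‖coef a (α ∘ ρ)‖ ≤
        ((Lam k p D).filter (fun α => ¬ supp α ⊆ J)).card • (θ * ∑ f, a f) := by
      refine sum_le_card_nsmul _ _ _ fun α hα => ?_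
      obtain ⟨hα1, hα2⟩ := mem_filter.1 hα
      by_contra hc
      push Not at hc
      apply hα2
      exact subset_biUnion_of_mem supp (mem_Big.2 ⟨hα1, hc.le⟩)
    refine h4.trans ?_
    rw [nsmul_eq_mul]
    gcongr
    exact filter_subset _ _
  have h5 := Complex.abs_re_le_norm
    (∑ α ∈ (Lam k p D).filter (fun α => ¬ supp α ⊆ J), coef a (α ∘ ρ))
  have h6 := neg_abs_le (∑ α ∈ (Lam k p D).filter (fun α => ¬ supp α ⊆ J), coef a (α ∘ ρ)).re
  linarith

/-- The number of permutations for which a given tuple of characters is large. -/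
theorem tuple_count {k p h D t : ℕ} [Fact p.Prime] (hD0 : 0 < D) (hDk : k ≤ 2 * D)
    (hDk' : 2 * D ≤ k + 1) (hDt : D < 2 * t)
    (h1 : ∀ S : Finset (ZMod p), S.card ≤ k → ∀ A : ZMod p → ℂ,
      ∑ a : ZMod p, ‖∑ s ∈ S, A s * ZMod.stdAddChar (a * s)‖ ^ (2 * t) ≤
        p * (∑ s ∈ S, ‖A s‖ ^ ((2 * t : ℝ) / ((2 * t - D : ℕ) : ℝ))) ^ (2 * t - D))
    (π : Fin (k * h) → Fin k) (hπ : ∀ i, (univ.filter fun x => π x = i).card = h)
    (a : (Fin (k * h) → ZMod p) → ℝ) (h0 : ∀ f, 0 ≤ a f) (ha1 : ∀ f, a f ≤ 1)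
    {θ : ℝ} (hθ : 0 < θ) (A : Fin D → (Fin k → ZMod p)) (hA : ∀ j, A j ∈ Lam k p D)
    (ι : Fin D → Fin k) (hι : Function.Injective ι) (hAι : ∀ j, A j (ι j) ≠ 0) :
    (((univ.filter fun σ : Equiv.Perm (Fin (k * h)) =>
      ∀ j, θ * ∑ f, a f ≤ ‖coef a (A j ∘ (π ∘ σ))‖).card : ℕ) : ℝ) *
      (∑ f, a f) * θ ^ (2 * t) * 2 ^ (k * h) ≤
      (p : ℝ) ^ (k * h) * ((k * h + 1 : ℕ) * ((k * h).factorial : ℕ)) := by
  classical
  set X := univ.filter fun σ : Equiv.Perm (Fin (k * h)) =>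
      ∀ j, θ * ∑ f, a f ≤ ‖coef a (A j ∘ (π ∘ σ))‖ with hX
  let ℬ : Fin D → Finset (Fin (k * h) → ZMod p) := fun j => univ.filter fun β =>
    (∀ x, β x ∈ univ.image (A j)) ∧ θ * ∑ f, a f ≤ ‖coef a β‖
  have hμ0 : 0 ≤ ∑ f, a f := sum_nonneg fun f _ => h0 f
  -- each fibre
  let C : Fin k → (Fin D → ZMod p) := fun i j => A j i
  have hC : ∀ c, 2 * (univ.filter fun i => C i = c).card ≤ k := by
    intro c
    by_cases hc : c = 0
    · have e1 : (univ.filter fun i => C i = c) ⊆ univ \ univ.image ι := by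
        intro i hi
        rw [mem_sdiff]
        refine ⟨mem_univ _, fun hi' => ?_⟩
        obtain ⟨j, _, rfl⟩ := mem_image.1 hi'
        have e2 := (mem_filter.1 hi).2
        have e3 := congrFun e2 j
        rw [hc] at e3
        exact hAι j e3
      have e2 := card_le_card e1
      rw [card_sdiff_of_subset (subset_univ _), card_image_of_injective _ hι, Finset.card_univ,
        Finset.card_univ, Fintype.card_fin, Fintype.card_fin] at e2
      omega
    · have e1 : ∃ j, c j ≠ 0 := by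
        by_contra h'
        push Not at h'
        exact hc (funext h')
      obtain ⟨j, hj⟩ := e1
      have e2 : (univ.filter fun i => C i = c) ⊆ supp (A j) := by
        intro i hi
        rw [mem_supp]
        have e3 := congrFun (mem_filter.1 hi).2 j
        intro h'
        apply hj
        rw [← e3]
        exact h'
      have e3 := card_le_card e2
      have e4 := (mem_Lam _).1 (hA j)
      omega
  have hfib : ∀ β : Fin D → (Fin (k * h) → ZMod p),
      2 ^ (k * h) * (X.filter fun σ : Equiv.Perm (Fin (k * h)) => (fun j => A j ∘ (π ∘ σ)) = β).card ≤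
        (k * h + 1) * (k * h).factorial := by
    intro β
    refine le_trans (Nat.mul_le_mul le_rfl (card_le_card ?_))
      (count π hπ C hC (fun x j => β j x))
    intro σ hσ
    have e1 := (mem_filter.1 hσ).2
    rw [mem_filter]
    refine ⟨mem_univ _, ?_⟩
    funext x
    funext j
    exact congrFun (congrFun e1 j) x
  have hcard : X.card * 2 ^ (k * h) ≤ (∏ j, (ℬ j).card) * ((k * h + 1) * (k * h).factorial) := by
    have e1 : X.card = ∑ β ∈ Fintype.piFinset ℬ,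
        (X.filter fun σ : Equiv.Perm (Fin (k * h)) => (fun j => A j ∘ (π ∘ σ)) = β).card := by
      refine card_eq_sum_card_fiberwise fun σ hσ => ?_
      rw [mem_coe, Fintype.mem_piFinset]
      intro j
      simp only [ℬ, mem_filter, mem_univ, true_and]
      refine ⟨fun x => mem_image_of_mem _ (mem_univ _), ?_⟩
      exact (mem_filter.1 hσ).2 j
    rw [e1, sum_mul, ← Fintype.card_piFinset]
    refine (sum_le_card_nsmul _ _ ((k * h + 1) * (k * h).factorial) fun β _ => ?_).trans_eq ?_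
    · rw [mul_comm]
      exact hfib β
    · rw [smul_eq_mul]
  -- the number of large characters
  have hlarge : ((∏ j, (ℬ j).card : ℕ) : ℝ) * (∑ f, a f) * θ ^ (2 * t) ≤ (p : ℝ) ^ (k * h) := by
    have : Nonempty (Fin D) := ⟨⟨0, hD0⟩⟩
    obtain ⟨j₀, _, hj₀⟩ := exists_max_image (univ : Finset (Fin D)) (fun j => (ℬ j).card)
      univ_nonempty
    have e1 : ∏ j, (ℬ j).card ≤ (ℬ j₀).card ^ D := by
      refine (prod_le_pow_card _ _ _ fun j hj => hj₀ j hj).trans_eq ?_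
      rw [Finset.card_univ, Fintype.card_fin]
    have e2 := few_large (n := k * h) hD0 hDt (univ.image (A j₀))
      (h1 _ ((card_image_le).trans_eq (by rw [Finset.card_univ, Fintype.card_fin]))) a h0 ha1 hθ
      (ℬ j₀) (fun β hβ x => ((mem_filter.1 hβ).2.1 x)) (fun β hβ => (mem_filter.1 hβ).2.2)
    refine le_trans ?_ e2
    gcongr
    exact_mod_cast e1
  have hcard' : (X.card : ℝ) * 2 ^ (k * h) ≤
      ((∏ j, (ℬ j).card : ℕ) : ℝ) * ((k * h + 1 : ℕ) * ((k * h).factorial : ℕ)) := by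
    exact_mod_cast hcard
  calc (X.card : ℝ) * (∑ f, a f) * θ ^ (2 * t) * 2 ^ (k * h)
      = ((X.card : ℝ) * 2 ^ (k * h)) * ((∑ f, a f) * θ ^ (2 * t)) := by ring
    _ ≤ (((∏ j, (ℬ j).card : ℕ) : ℝ) * ((k * h + 1 : ℕ) * ((k * h).factorial : ℕ))) *
        ((∑ f, a f) * θ ^ (2 * t)) := by gcongr
    _ = (((∏ j, (ℬ j).card : ℕ) : ℝ) * (∑ f, a f) * θ ^ (2 * t)) *
        ((k * h + 1 : ℕ) * ((k * h).factorial : ℕ)) := by ring
    _ ≤ _ := by gcongr

/-- The number of bad permutations. -/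
theorem bad_count {k p h D t : ℕ} [Fact p.Prime] (hD0 : 0 < D) (hDk : k ≤ 2 * D)
    (hDk' : 2 * D ≤ k + 1) (hDt : D < 2 * t)
    (h1 : ∀ S : Finset (ZMod p), S.card ≤ k → ∀ A : ZMod p → ℂ,
      ∑ a : ZMod p, ‖∑ s ∈ S, A s * ZMod.stdAddChar (a * s)‖ ^ (2 * t) ≤
        p * (∑ s ∈ S, ‖A s‖ ^ ((2 * t : ℝ) / ((2 * t - D : ℕ) : ℝ))) ^ (2 * t - D))
    (π : Fin (k * h) → Fin k) (hπ : ∀ i, (univ.filter fun x => π x = i).card = h)
    (a : (Fin (k * h) → ZMod p) → ℝ) (h0 : ∀ f, 0 ≤ a f) (ha1 : ∀ f, a f ≤ 1)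
    {θ : ℝ} (hθ : 0 < θ) :
    (((univ.filter fun σ : Equiv.Perm (Fin (k * h)) =>
      D ≤ (Jun D θ a (π ∘ σ)).card).card : ℕ) : ℝ) *
      (∑ f, a f) * θ ^ (2 * t) * 2 ^ (k * h) ≤
      ((Lam k p D).card : ℝ) ^ D *
        ((p : ℝ) ^ (k * h) * ((k * h + 1 : ℕ) * ((k * h).factorial : ℕ))) := by
  classical
  set T := (Fintype.piFinset fun _ : Fin D => Lam k p D).filter fun A =>
    ∃ ι : Fin D → Fin k, Function.Injective ι ∧ ∀ j, A j (ι j) ≠ 0 with hT
  let X : (Fin D → (Fin k → ZMod p)) → Finset (Equiv.Perm (Fin (k * h))) := fun A =>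
    univ.filter fun σ : Equiv.Perm (Fin (k * h)) =>
      ∀ j, θ * ∑ f, a f ≤ ‖coef a (A j ∘ (π ∘ σ))‖
  have hsub : (univ.filter fun σ : Equiv.Perm (Fin (k * h)) =>
      D ≤ (Jun D θ a (π ∘ σ)).card) ⊆ T.biUnion X := by
    intro σ hσ
    have hJ : D ≤ (Jun D θ a (π ∘ σ)).card := (mem_filter.1 hσ).2
    obtain ⟨J', hJ', hJc⟩ := exists_subset_card_eq hJ
    let e := J'.equivFinOfCardEq hJc
    have h2 : ∀ j : Fin D, ∃ α ∈ Big D θ a (π ∘ σ), α (e.symm j) ≠ 0 := by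
      intro j
      have h3 := hJ' (e.symm j).2
      rw [Jun, mem_biUnion] at h3
      obtain ⟨α, hα, hα'⟩ := h3
      exact ⟨α, hα, (mem_supp _ _).1 hα'⟩
    choose A hA hA' using h2
    rw [mem_biUnion]
    refine ⟨A, ?_, ?_⟩
    · rw [hT, mem_filter, Fintype.mem_piFinset]
      exact ⟨fun j => (mem_Big.1 (hA j)).1, fun j => (e.symm j).1,
        fun i j hij => e.symm.injective (Subtype.ext hij), hA'⟩
    · simp only [X, mem_filter, mem_univ, true_and]
      exact fun j => (mem_Big.1 (hA j)).2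
  have hμ0 : 0 ≤ ∑ f, a f := sum_nonneg fun f _ => h0 f
  have h2 : (((univ.filter fun σ : Equiv.Perm (Fin (k * h)) =>
      D ≤ (Jun D θ a (π ∘ σ)).card).card : ℕ) : ℝ) ≤ ∑ A ∈ T, ((X A).card : ℝ) := by
    exact_mod_cast (card_le_card hsub).trans card_biUnion_le
  calc _ ≤ (∑ A ∈ T, ((X A).card : ℝ)) * (∑ f, a f) * θ ^ (2 * t) * 2 ^ (k * h) := by gcongr
    _ = ∑ A ∈ T, ((X A).card : ℝ) * (∑ f, a f) * θ ^ (2 * t) * 2 ^ (k * h) := by
        rw [sum_mul, sum_mul, sum_mul]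
    _ ≤ T.card • ((p : ℝ) ^ (k * h) * ((k * h + 1 : ℕ) * ((k * h).factorial : ℕ))) := by
        refine sum_le_card_nsmul _ _ _ fun A hA => ?_
        rw [hT, mem_filter, Fintype.mem_piFinset] at hA
        obtain ⟨hA1, ι, hι, hAι⟩ := hA
        exact tuple_count hD0 hDk hDk' hDt h1 π hπ a h0 ha1 hθ A hA1 ι hι hAι
    _ ≤ _ := by
        rw [nsmul_eq_mul]
        gcongr
        have : T.card ≤ (Lam k p D).card ^ D := by
          refine (card_le_card (filter_subset _ _)).trans_eq ?_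
          rw [Fintype.card_piFinset, prod_const, Finset.card_univ, Fintype.card_fin]
        exact_mod_cast this

end SetCoverLPF
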