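import Pool.Agent.Lib.MP_8fffab_lc_LP2.Bad
import Pool.Agent.Lib.MP_8fffab_lc_scm_h93.OneDimI

/-!
# The number of rectangles
-/

set_option autoImplicit false

open Finset

namespace SetCoverLPF

/-- the test function -/
noncomputable def WW {n k : ℕ} (p D : ℕ) [NeZero p] (ρ : Fin n → Fin k) (f : Fin n → ZMod p) : ℂ :=
  ∑ α ∈ Lam k p D, (ZMod.stdAddChar (f ⬝ᵥ (α ∘ ρ)) : ℂ)

/-- Normalised rectangles. -/
theorem core_norm {k p h D t r : ℕ} [Fact p.Prime] (hk : 1 ≤ k) (hh : 0 < h) (hDk : k ≤ 2 * D)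
    (hDk' : 2 * D ≤ k + 1) (hDt : D < 2 * t)
    (h1 : ∀ S : Finset (ZMod p), S.card ≤ k → ∀ A : ZMod p → ℂ,
      ∑ a : ZMod p, ‖∑ s ∈ S, A s * ZMod.stdAddChar (a * s)‖ ^ (2 * t) ≤
        p * (∑ s ∈ S, ‖A s‖ ^ ((2 * t : ℝ) / ((2 * t - D : ℕ) : ℝ))) ^ (2 * t - D))
    (π : Fin (k * h) → Fin k) (hπ : ∀ i, (univ.filter fun x => π x = i).card = h)
    {ε : ℝ} (hε : 0 < ε)
    (a : Fin r → (Fin (k * h) → ZMod p) → ℝ) (b : Fin r → Equiv.Perm (Fin (k * h)) → ℝ)
    (ha0 : ∀ j f, 0 ≤ a j f) (ha1 : ∀ j f, a j f ≤ 1) (haz : ∀ j f, f ∉ Aff (k * h) p → a j f = 0)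
    (hb0 : ∀ j σ, 0 ≤ b j σ) (hb1 : ∀ j σ, b j σ ≤ 1)
    (hab1 : ∀ f ∈ Aff (k * h) p, ∀ σ, ∑ j, a j f * b j σ ≤ 1)
    (habW : ∀ σ : Equiv.Perm (Fin (k * h)), ∑ f ∈ Aff (k * h) p, (WW p D (π ∘ σ) f).re *
      ∑ j, a j f * b j σ ≤ -(ε * (Aff (k * h) p).card)) :
    ε * (ε / (2 * (Lam k p D).card)) ^ (2 * t) * 2 ^ (k * h) ≤
      2 * p * (Lam k p D).card ^ (D + 1) * r * (k * h + 1 : ℕ) := by
  classical
  have hp0 : 0 < p := (Fact.out : p.Prime).pos
  have hp0' : (0 : ℝ) < p := by exact_mod_cast hp0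
  set L : ℝ := ((Lam k p D).card : ℝ) with hL
  have hL0 : 0 < L := by
    rw [hL]
    have : (0 : Fin k → ZMod p) ∈ Lam k p D := by
      rw [mem_Lam]
      have : supp (0 : Fin k → ZMod p) = ∅ := by
        ext i
        simp [mem_supp]
      rw [this]
      simp only [card_empty]
      omega
    exact_mod_cast card_pos.2 ⟨_, this⟩
  set θ : ℝ := ε / (2 * L) with hθd
  have hθ : 0 < θ := by rw [hθd]; positivity
  set N : ℝ := ((Aff (k * h) p).card : ℝ) with hN
  have hNp : (p : ℝ) * N = (p : ℝ) ^ (k * h) := by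
    have := card_Aff (n := k * h) (p := p) (Nat.mul_pos (by omega) hh)
    rw [hN]
    exact_mod_cast this
  set μ : Fin r → ℝ := fun j => ∑ f, a j f with hμ
  have hμ0 : ∀ j, 0 ≤ μ j := fun j => sum_nonneg fun f _ => ha0 j f
  let Bad : Fin r → Finset (Equiv.Perm (Fin (k * h))) := fun j =>
    univ.filter fun σ : Equiv.Perm (Fin (k * h)) => D ≤ (Jun D θ (a j) (π ∘ σ)).card
  -- for each permutation
  have hσ : ∀ σ : Equiv.Perm (Fin (k * h)),
      ∑ j, b j σ * (∑ α ∈ Lam k p D, coef (a j) (α ∘ (π ∘ σ))).re ≤ -(ε * N) := by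
    intro σ
    refine le_trans (le_of_eq ?_) (habW σ)
    have e4 : ∀ j, (∑ α ∈ Lam k p D, coef (a j) (α ∘ (π ∘ σ))).re =
        ∑ f ∈ Aff (k * h) p, a j f * (WW p D (π ∘ σ) f).re := by
      intro j
      have e5 : ∑ α ∈ Lam k p D, coef (a j) (α ∘ (π ∘ σ)) =
          ∑ f ∈ Aff (k * h) p, (a j f : ℂ) * WW p D (π ∘ σ) f := by
        simp only [coef]
        rw [sum_comm, ← sum_subset (subset_univ (Aff (k * h) p))]
        · exact sum_congr rfl fun f _ => by rw [WW, mul_sum]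
        · intro f _ hf
          rw [haz j f hf]
          simp
      rw [e5, Complex.re_sum]
      exact sum_congr rfl fun f _ => Complex.re_ofReal_mul _ _
    simp only [e4, mul_sum]
    rw [sum_comm]
    refine sum_congr rfl fun f _ => sum_congr rfl fun j _ => ?_
    ring
  -- for each permutation and rectangle
  have hone : ∀ j σ, -(b j σ * (L * (θ * μ j))) - (if σ ∈ Bad j then L * μ j else 0) ≤
      b j σ * (∑ α ∈ Lam k p D, coef (a j) (α ∘ (π ∘ σ))).re := by
    intro j σ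
    split_ifs with hbad
    · have e1 := trivial_bound D (a j) (ha0 j) (π ∘ σ)
      have e2 := mul_le_mul_of_nonneg_left e1 (hb0 j σ)
      have e3 : b j σ * (L * μ j) ≤ 1 * (L * μ j) :=
        mul_le_mul_of_nonneg_right (hb1 j σ) (mul_nonneg hL0.le (hμ0 j))
      have e4 : 0 ≤ b j σ * (L * (θ * μ j)) :=
        mul_nonneg (hb0 j σ) (mul_nonneg hL0.le (mul_nonneg hθ.le (hμ0 j)))
      have e5 : b j σ * -(L * μ j) ≤ b j σ * (∑ α ∈ Lam k p D, coef (a j) (α ∘ (π ∘ σ))).re := e2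
      linarith
    · have hJ : (Jun D θ (a j) (π ∘ σ)).card < D := by
        by_contra hc
        apply hbad
        simp only [Bad, mem_filter, mem_univ, true_and]
        exact not_lt.1 hc
      have e1 := good_bound D hθ.le (a j) (ha0 j) (π ∘ σ) hJ
      have e2 : b j σ * -(L * (θ * μ j)) ≤
          b j σ * (∑ α ∈ Lam k p D, coef (a j) (α ∘ (π ∘ σ))).re :=
        mul_le_mul_of_nonneg_left e1 (hb0 j σ)
      linarith
  -- the main term
  have hmain : ∀ σ, ∑ j, b j σ * (L * (θ * μ j)) ≤ ε / 2 * N := by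
    intro σ
    have e1 : ∑ j, b j σ * μ j ≤ N := by
      have e2 : ∑ j, b j σ * μ j = ∑ f ∈ Aff (k * h) p, ∑ j, a j f * b j σ := by
        rw [sum_comm]
        refine sum_congr rfl fun j _ => ?_
        rw [hμ]
        simp only
        rw [mul_sum, ← sum_subset (subset_univ (Aff (k * h) p))]
        · exact sum_congr rfl fun f _ => mul_comm _ _
        · intro f _ hf
          rw [haz j f hf, mul_zero]
      rw [e2]
      have e3 : ∑ f ∈ Aff (k * h) p, ∑ j, a j f * b j σ ≤ (Aff (k * h) p).card • (1 : ℝ) :=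
        sum_le_card_nsmul _ _ _ fun f hf => hab1 f hf σ
      refine e3.trans_eq ?_
      rw [nsmul_eq_mul, mul_one]
    calc ∑ j, b j σ * (L * (θ * μ j)) = L * θ * ∑ j, b j σ * μ j := by
          rw [mul_sum]
          exact sum_congr rfl fun j _ => by ring
      _ ≤ L * θ * N := by gcongr
      _ = ε / 2 * N := by
          rw [hθd]
          field_simp
  have hper : ∀ σ, ε / 2 * N ≤ ∑ j, (if σ ∈ Bad j then L * μ j else 0) := by
    intro σ
    have e1 := sum_le_sum fun j (_ : j ∈ (univ : Finset (Fin r))) => hone j σ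
    have e3 := hσ σ
    rw [sum_sub_distrib, sum_neg_distrib] at e1
    have e2 := hmain σ
    linarith
  have htot : ((k * h).factorial : ℝ) * (ε / 2 * N) ≤
      ∑ j, L * μ j * ((Bad j).card : ℝ) := by
    have e1 := sum_le_sum fun σ (_ : σ ∈ (univ : Finset (Equiv.Perm (Fin (k * h))))) => hper σ
    rw [sum_const, Finset.card_univ, Fintype.card_perm, Fintype.card_fin, nsmul_eq_mul] at e1
    refine e1.trans_eq ?_
    rw [sum_comm]
    refine sum_congr rfl fun j _ => ?_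
    rw [← sum_filter, sum_const, nsmul_eq_mul, filter_mem_eq_inter, univ_inter, mul_comm]
  -- bound for the bad permutations
  set E : ℝ := L ^ D * ((p : ℝ) ^ (k * h) * ((k * h + 1 : ℕ) * ((k * h).factorial : ℕ))) with hE
  have hbad : ∀ j, ((Bad j).card : ℝ) * μ j * θ ^ (2 * t) * 2 ^ (k * h) ≤ E := fun j =>
    bad_count (by omega) hDk hDk' hDt h1 π hπ (a j) (ha0 j) (ha1 j) hθ
  have hfin : ((k * h).factorial : ℝ) * (ε / 2 * N) * (θ ^ (2 * t) * 2 ^ (k * h)) ≤
      r * (L * E) := by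
    have e1 := mul_le_mul_of_nonneg_right htot
      (by positivity : (0 : ℝ) ≤ θ ^ (2 * t) * 2 ^ (k * h))
    refine e1.trans ?_
    rw [sum_mul]
    have e2 : ∀ j ∈ (univ : Finset (Fin r)), L * μ j * ((Bad j).card : ℝ) *
        (θ ^ (2 * t) * 2 ^ (k * h)) ≤ L * E := by
      intro j _
      have := hbad j
      calc L * μ j * ((Bad j).card : ℝ) * (θ ^ (2 * t) * 2 ^ (k * h))
          = L * (((Bad j).card : ℝ) * μ j * θ ^ (2 * t) * 2 ^ (k * h)) := by ring
        _ ≤ L * E := by gcongr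
    refine (sum_le_card_nsmul _ _ _ e2).trans_eq ?_
    rw [Finset.card_univ, Fintype.card_fin, nsmul_eq_mul]
  have hfact : (0 : ℝ) < ((k * h).factorial : ℕ) := by exact_mod_cast Nat.factorial_pos _
  have hpow : (0 : ℝ) < (p : ℝ) ^ (k * h) := by positivity
  have hNeq : N = (p : ℝ) ^ (k * h) / p := by
    rw [← hNp]
    field_simp
  rw [hNeq, hE] at hfin
  have e1 : ((k * h).factorial : ℝ) * (ε / 2 * ((p : ℝ) ^ (k * h) / p)) *
      (θ ^ (2 * t) * 2 ^ (k * h)) =
      (((k * h).factorial : ℝ) * (p : ℝ) ^ (k * h) / (2 * p)) *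
        (ε * θ ^ (2 * t) * 2 ^ (k * h)) := by
    field_simp
  have e2 : r * (L * (L ^ D * ((p : ℝ) ^ (k * h) *
      ((k * h + 1 : ℕ) * ((k * h).factorial : ℕ))))) =
      (((k * h).factorial : ℝ) * (p : ℝ) ^ (k * h) / (2 * p)) *
        (2 * p * L ^ (D + 1) * r * (k * h + 1 : ℕ)) := by
    rw [pow_succ]
    field_simp
  rw [e1, e2] at hfin
  exact le_of_mul_le_mul_left hfin (by positivity)

end SetCoverLPF
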