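import Mathlib

/-!
Linear programming formulations of Set Cover: tell the families of `h`-subsets of a set with
`k * h` elements which contain a cover with `k` members from those which do not.
-/

set_option autoImplicit false

namespace SetCoverLPF

/-- `P` is a cover of `Fin (k * h)` which consists of `k` sets of `h` elements (so it is a
partition). -/
def IsCover (k h : ℕ) (P : Finset (Finset (Fin (k * h)))) : Prop :=
  P.card = k ∧ (∀ A ∈ P, A.card = h) ∧ ∀ x, ∃ A ∈ P, x ∈ A

/-- `𝓕` is a family of sets of `h` elements. -/
def Uniform (k h : ℕ) (𝓕 : Finset (Finset (Fin (k * h)))) : Prop :=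
  ∀ A ∈ 𝓕, A.card = h

/-- A linear programming formulation with `r` inequalities of the problem to tell the families of
`h`-subsets of `Fin (k * h)` which contain a cover with `k` members from those which do not,
with gap `ε`.

The feasible region is the set of the `y : Fin d → ℝ` with `a i ⬝ᵥ y ≤ b i` for the `r`
inequalities `i` and `c j ⬝ᵥ y = e j` for the `m` equations `j`; it does not depend on the input
family, and the numbers `d` of variables and `m` of equations are not restricted.  The input
family `𝓕` enters only through the affine objective function `y ↦ obj 𝓕 ⬝ᵥ y + obj0 𝓕`.  If `𝓕`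
contains no cover with `k` members, it is at most `1 - ε` on the whole feasible region.  Each
cover `P` with `k` sets of `h` elements has a feasible point `point P`, at which the objective
function of `𝓕` is at least `1` if `P ⊆ 𝓕`; as a function of `𝓕` it is there a combination with
coefficients `wt P 𝓖 ≥ 0` of the indicator functions of `𝓖 ⊆ 𝓕`, where `𝓖` runs through the
families with less than `k / 2` members (for example, the number of members of `P` in `𝓕`
divided by `k`). -/
structure LPFormulation (k h : ℕ) (ε : ℝ) (r : ℕ) where
  /-- number of variables -/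
  d : ℕ
  /-- number of equations -/
  m : ℕ
  /-- left sides of the inequalities -/
  a : Fin r → Fin d → ℝ
  /-- right sides of the inequalities -/
  b : Fin r → ℝ
  /-- left sides of the equations -/
  c : Fin m → Fin d → ℝ
  /-- right sides of the equations -/
  e : Fin m → ℝ
  /-- linear part of the objective function of a family -/
  obj : Finset (Finset (Fin (k * h))) → Fin d → ℝ
  /-- constant term of the objective function of a family -/
  obj0 : Finset (Finset (Fin (k * h))) → ℝ
  /-- the point of a cover -/
  point : Finset (Finset (Fin (k * h))) → Fin d → ℝ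
  /-- the coefficients of the objective function at the point of a cover -/
  wt : Finset (Finset (Fin (k * h))) → Finset (Finset (Fin (k * h))) → ℝ
  /-- the coefficients are nonnegative -/
  wt_nonneg : ∀ P 𝓖, 0 ≤ wt P 𝓖
  /-- only families with less than `k / 2` members are used -/
  wt_small : ∀ P 𝓖, k ≤ 2 * 𝓖.card → wt P 𝓖 = 0
  /-- the points of the covers satisfy the inequalities -/
  point_le : ∀ P, IsCover k h P → ∀ i, a i ⬝ᵥ point P ≤ b i
  /-- the points of the covers satisfy the equations -/
  point_eq : ∀ P, IsCover k h P → ∀ j, c j ⬝ᵥ point P = e j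
  /-- the value of the objective function at the point of a cover -/
  point_val : ∀ P, IsCover k h P → ∀ 𝓕, Uniform k h 𝓕 →
    obj 𝓕 ⬝ᵥ point P + obj0 𝓕 = ∑ 𝓖 ∈ 𝓕.powerset, wt P 𝓖
  /-- the value is at least `1` at the point of a cover in the family -/
  complete : ∀ P, IsCover k h P → ∀ 𝓕, Uniform k h 𝓕 → P ⊆ 𝓕 →
    1 ≤ obj 𝓕 ⬝ᵥ point P + obj0 𝓕
  /-- the value is at most `1 - ε` if there is no cover in the family -/
  sound : ∀ 𝓕, Uniform k h 𝓕 → (∀ P, IsCover k h P → ¬ P ⊆ 𝓕) → ∀ y : Fin d → ℝ,
    (∀ i, a i ⬝ᵥ y ≤ b i) → (∀ j, c j ⬝ᵥ y = e j) → obj 𝓕 ⬝ᵥ y + obj0 𝓕 ≤ 1 - ε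

end SetCoverLPF
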