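import Pool.Agent.Lib.MP_8fffab_lc_scm.Tensor

/-!
# The number of large characters of a function with values in `[0, 1]`
-/

set_option autoImplicit false

open Finset

namespace SetCoverLPF

/-- Large characters with letters in a small set `S`, from the tensorised one-dimensional inequality
for `S`. -/
theorem few_large {p n t G : ℕ} [Fact p.Prime] (hG0 : 0 < G) (hG : G < 2 * t)
    (S : Finset (ZMod p))
    (h1 : ∀ A : ZMod p → ℂ, ∑ a : ZMod p, ‖∑ s ∈ S, A s * ZMod.stdAddChar (a * s)‖ ^ (2 * t) ≤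
        p * (∑ s ∈ S, ‖A s‖ ^ ((2 * t : ℝ) / ((2 * t - G : ℕ) : ℝ))) ^ (2 * t - G))
    (a : (Fin n → ZMod p) → ℝ) (h0 : ∀ f, 0 ≤ a f) (ha1 : ∀ f, a f ≤ 1) {θ : ℝ} (hθ : 0 < θ)
    (ℬ : Finset (Fin n → ZMod p)) (hB : ∀ β ∈ ℬ, ∀ i, β i ∈ S)
    (hb : ∀ β ∈ ℬ, θ * ∑ f, a f ≤ ‖∑ f, (a f : ℂ) * ZMod.stdAddChar (f ⬝ᵥ β)‖) :
    (ℬ.card : ℝ) ^ G * (∑ f, a f) * θ ^ (2 * t) ≤ (p : ℝ) ^ n := by
  classical
  set μ : ℝ := ∑ f, a f with hμ
  have hp0 : (0 : ℝ) < p := by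
    have := (Fact.out : p.Prime).pos
    exact_mod_cast this
  have hμ0 : 0 ≤ μ := sum_nonneg fun f _ => h0 f
  rcases hμ0.eq_or_lt with hμ1 | hμ1
  · rw [← hμ1]
    simp only [mul_zero, zero_mul]
    positivity
  -- unimodular coefficients
  let c : (Fin n → ZMod p) → ℂ := fun β => ∑ f, (a f : ℂ) * ZMod.stdAddChar (f ⬝ᵥ β)
  have hu : ∀ β, ∃ u : ℂ, ‖u‖ = 1 ∧ u * c β = (‖c β‖ : ℂ) := by
    intro β
    by_cases hc : c β = 0
    · exact ⟨1, by simp, by simp [hc]⟩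
    · refine ⟨(‖c β‖ : ℂ) / c β, ?_, ?_⟩
      · rw [norm_div, Complex.norm_real, norm_norm, div_self (norm_ne_zero_iff.2 hc)]
      · rw [div_mul_cancel₀ _ hc]
  choose u hu1 hu2 using hu
  let A : (Fin n → ZMod p) → ℂ := fun β => if β ∈ ℬ then u β else 0
  have hA : ∀ w, A w ≠ 0 → ∀ i, w i ∈ S := by
    intro w hw i
    by_cases h : w ∈ ℬ
    · exact hB w h i
    · exact absurd (if_neg h) hw
  set T : ℕ := 2 * t - G with hT
  have hT1 : 1 ≤ T := by omega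
  have hT0 : (0 : ℝ) < T := by exact_mod_cast hT1
  have ht0 : (0 : ℝ) < t := by
    have : 0 < t := by omega
    exact_mod_cast this
  set q : ℝ := (2 * t : ℝ) / (T : ℝ) with hq
  have hq0 : 0 < q := by rw [hq]; positivity
  have hqT : q * (T : ℝ) = 2 * t := by
    rw [hq, div_mul_cancel₀ _ hT0.ne']
  have h13 := SetCoverMono.tensor (p := p) (q := q) hq0 (t := t) hT1 hqT (S := S) h1 n A hA
  have hsumA : ∑ w, ‖A w‖ ^ q = (ℬ.card : ℝ) := by
    have : ∀ w, ‖A w‖ ^ q = if w ∈ ℬ then (1 : ℝ) else 0 := by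
      intro w
      by_cases h : w ∈ ℬ
      · simp only [A, if_pos h, hu1, Real.one_rpow]
      · simp only [A, if_neg h, norm_zero]
        exact Real.zero_rpow hq0.ne'
    simp only [this]
    simp
  rw [hsumA] at h13
  let g : (Fin n → ZMod p) → ℂ := fun f => ∑ w, A w * ZMod.stdAddChar (f ⬝ᵥ w)
  -- duality
  have hdual : (ℬ.card : ℝ) * (θ * μ) ≤ ∑ f, a f * ‖g f‖ := by
    have e1 : ∑ f, (a f : ℂ) * g f = ∑ β ∈ ℬ, (‖c β‖ : ℂ) := by
      simp only [g, mul_sum]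
      rw [sum_comm]
      have e2 : ∀ w : Fin n → ZMod p, ∑ f : Fin n → ZMod p,
          (a f : ℂ) * (A w * ZMod.stdAddChar (f ⬝ᵥ w)) = if w ∈ ℬ then (‖c w‖ : ℂ) else 0 := by
        intro w
        by_cases h : w ∈ ℬ
        · rw [if_pos h, ← hu2]
          simp only [A, if_pos h, c, mul_sum]
          refine sum_congr rfl fun f _ => ?_
          ring
        · rw [if_neg h]
          simp only [A, if_neg h, zero_mul, mul_zero, sum_const_zero]
      rw [sum_congr rfl fun w _ => e2 w]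
      simp
    have e3 : (∑ β ∈ ℬ, ‖c β‖ : ℝ) ≤ ∑ f, a f * ‖g f‖ := by
      have e4 : ‖∑ β ∈ ℬ, (‖c β‖ : ℂ)‖ = ∑ β ∈ ℬ, ‖c β‖ := by
        rw [← Complex.ofReal_sum, Complex.norm_real, Real.norm_of_nonneg]
        exact sum_nonneg fun _ _ => norm_nonneg _
      rw [← e4, ← e1]
      refine (norm_sum_le _ _).trans (sum_le_sum fun f _ => ?_)
      rw [norm_mul, Complex.norm_real, Real.norm_of_nonneg (h0 f)]
    refine le_trans ?_ e3
    rw [← nsmul_eq_mul]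
    exact card_nsmul_le_sum _ _ _ fun β hβ => hb β hβ
  -- power mean
  have hpow : (∑ f, a f * ‖g f‖) ^ (2 * t) ≤ μ ^ (2 * t - 1) * ∑ f, ‖g f‖ ^ (2 * t) := by
    have e5 : (∑ f, (a f / μ) * ‖g f‖) ^ (2 * t) ≤ ∑ f, (a f / μ) * ‖g f‖ ^ (2 * t) := by
      refine Real.pow_arith_mean_le_arith_mean_pow _ _ _ (fun f _ => div_nonneg (h0 f) hμ0) ?_
        (fun f _ => norm_nonneg _) _
      rw [← sum_div, ← hμ, div_self hμ1.ne']
    have e6 : ∑ f, (a f / μ) * ‖g f‖ = (∑ f, a f * ‖g f‖) / μ := by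
      rw [sum_div]
      exact sum_congr rfl fun f _ => by ring
    have e7 : ∑ f, (a f / μ) * ‖g f‖ ^ (2 * t) ≤ (∑ f, ‖g f‖ ^ (2 * t)) / μ := by
      rw [sum_div]
      refine sum_le_sum fun f _ => ?_
      rw [div_mul_eq_mul_div]
      gcongr
      have : 0 ≤ ‖g f‖ ^ (2 * t) := by positivity
      nlinarith [ha1 f]
    rw [e6, div_pow] at e5
    have e8 := e5.trans e7
    have h2t : 2 * t - 1 + 1 = 2 * t := by omega
    rw [div_le_div_iff₀ (by positivity) hμ1] at e8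
    have e9 : μ ^ (2 * t) = μ ^ (2 * t - 1) * μ := by rw [← pow_succ, h2t]
    rw [e9] at e8
    have : (∑ f, a f * ‖g f‖) ^ (2 * t) * μ ≤ (μ ^ (2 * t - 1) * ∑ f, ‖g f‖ ^ (2 * t)) * μ := by
      linarith
    exact le_of_mul_le_mul_right this hμ1
  have hfin : ((ℬ.card : ℝ) * (θ * μ)) ^ (2 * t) ≤
      μ ^ (2 * t - 1) * ((p : ℝ) ^ n * (ℬ.card : ℝ) ^ T) := by
    refine (pow_le_pow_left₀ (by positivity) hdual _).trans (hpow.trans ?_)
    gcongr
  rcases Nat.eq_zero_or_pos ℬ.card with hN | hN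
  · rw [hN]
    simp only [CharP.cast_eq_zero, zero_pow hG0.ne', zero_mul]
    positivity
  · have hN' : (0 : ℝ) < ℬ.card := by exact_mod_cast hN
    have h2t : 2 * t - 1 + 1 = 2 * t := by omega
    have hGT : G + T = 2 * t := by omega
    have e10 : ((ℬ.card : ℝ) * (θ * μ)) ^ (2 * t) =
        ((ℬ.card : ℝ) ^ G * μ * θ ^ (2 * t)) * (μ ^ (2 * t - 1) * (ℬ.card : ℝ) ^ T) := by
      rw [mul_pow, mul_pow, ← hGT, pow_add (ℬ.card : ℝ), hGT]
      have : μ ^ (2 * t) = μ ^ (2 * t - 1) * μ := by rw [← pow_succ, h2t]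
      rw [this]
      ring
    rw [e10] at hfin
    have e11 : μ ^ (2 * t - 1) * ((p : ℝ) ^ n * (ℬ.card : ℝ) ^ T) =
        (p : ℝ) ^ n * (μ ^ (2 * t - 1) * (ℬ.card : ℝ) ^ T) := by ring
    rw [e11] at hfin
    exact le_of_mul_le_mul_right hfin (by positivity)

end SetCoverLPF
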