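import Pool.Agent.Lib.MP_8fffab_lc_LP2.Orth

/-!
# The mean of `W` on the event that some sets have the sum zero
-/

set_option autoImplicit false

open Finset

namespace SetCoverLPF

open Classical in
/-- the characters which only depend on the sums over the members of the family -/
noncomputable def Hs {n : ℕ} (p : ℕ) [NeZero p] (𝓖 : Finset (Finset (Fin n))) :
    Finset (Fin n → ZMod p) :=
  univ.filter fun γ => γ ∈ Submodule.span (ZMod p)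
    {χ : Fin n → ZMod p | ∃ A ∈ 𝓖, χ = fun x => if x ∈ A then 1 else 0}

theorem mem_Hs {n p : ℕ} [NeZero p] {𝓖 : Finset (Finset (Fin n))} {γ : Fin n → ZMod p} :
    γ ∈ Hs p 𝓖 ↔ γ ∈ Submodule.span (ZMod p)
      {χ : Fin n → ZMod p | ∃ A ∈ 𝓖, χ = fun x => if x ∈ A then 1 else 0} := by
  simp [Hs]

theorem Hs_pos {n p : ℕ} [NeZero p] (𝓖 : Finset (Finset (Fin n))) : 0 < (Hs p 𝓖).card :=
  card_pos.2 ⟨0, mem_Hs.2 (Submodule.zero_mem _)⟩

theorem dot_ind {n p : ℕ} (f : Fin n → ZMod p) (A : Finset (Fin n)) :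
    f ⬝ᵥ (fun x => if x ∈ A then (1 : ZMod p) else 0) = ∑ x ∈ A, f x := by
  simp only [dotProduct, mul_ite, mul_one, mul_zero]
  rw [← sum_filter]
  congr 1
  ext x
  simp

open Classical in
theorem sum_Hs {n p : ℕ} [NeZero p] (𝓖 : Finset (Finset (Fin n))) (f : Fin n → ZMod p) :
    ∑ γ ∈ Hs p 𝓖, (ZMod.stdAddChar (f ⬝ᵥ γ) : ℂ) =
      if ∀ A ∈ 𝓖, ∑ x ∈ A, f x = 0 then ((Hs p 𝓖).card : ℂ) else 0 := by
  split_ifs with h
  · have h1 : ∀ γ ∈ Hs p 𝓖, f ⬝ᵥ γ = 0 := by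
      intro γ hγ
      rw [mem_Hs] at hγ
      refine Submodule.span_induction (p := fun γ _ => f ⬝ᵥ γ = 0) ?_ ?_ ?_ ?_ hγ
      · rintro _ ⟨A, hA, rfl⟩
        rw [dot_ind]
        exact h A hA
      · exact dotProduct_zero f
      · intro x y _ _ hx hy
        rw [dotProduct_add, hx, hy, add_zero]
      · intro c x _ hx
        rw [dotProduct_smul, hx, smul_zero]
    rw [card_eq_sum_ones, Nat.cast_sum]
    refine sum_congr rfl fun γ hγ => ?_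
    rw [h1 γ hγ, AddChar.map_zero_eq_one]
    simp
  · push Not at h
    obtain ⟨A, hA, hne⟩ := h
    set γ₀ : Fin n → ZMod p := fun x => if x ∈ A then 1 else 0 with hγ₀
    have hmem : γ₀ ∈ Submodule.span (ZMod p)
        {χ : Fin n → ZMod p | ∃ A ∈ 𝓖, χ = fun x => if x ∈ A then 1 else 0} :=
      Submodule.subset_span ⟨A, hA, rfl⟩
    set s := ∑ γ ∈ Hs p 𝓖, (ZMod.stdAddChar (f ⬝ᵥ γ) : ℂ) with hs
    have h3 : s = ZMod.stdAddChar (f ⬝ᵥ γ₀) * s := by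
      conv_lhs => rw [hs]
      rw [hs, mul_sum]
      symm
      refine sum_equiv (Equiv.addRight γ₀) ?_ ?_
      · intro γ
        rw [mem_Hs, mem_Hs, Equiv.coe_addRight]
        exact (Submodule.add_mem_iff_left _ hmem).symm
      · intro γ _
        rw [Equiv.coe_addRight, dotProduct_add, AddChar.map_add_eq_mul, mul_comm]
    have h4 : (1 - (ZMod.stdAddChar (f ⬝ᵥ γ₀) : ℂ)) * s = 0 := by
      rw [sub_mul, one_mul, ← h3, sub_self]
    rcases mul_eq_zero.1 h4 with h5 | h5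
    · refine absurd (sub_eq_zero.1 h5).symm (stdAddChar_ne_one ?_)
      rw [hγ₀, dot_ind]
      exact hne
    · exact h5

theorem Hs_zero {n p : ℕ} [NeZero p] (𝓖 : Finset (Finset (Fin n))) (γ : Fin n → ZMod p)
    (hγ : γ ∈ Hs p 𝓖) (x : Fin n) (hx : ∀ A ∈ 𝓖, x ∉ A) : γ x = 0 := by
  rw [mem_Hs] at hγ
  refine Submodule.span_induction (p := fun γ _ => γ x = 0) ?_ ?_ ?_ ?_ hγ
  · rintro _ ⟨A, hA, rfl⟩
    exact if_neg (hx A hA)
  · rfl
  · intro a b _ _ ha hb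
    rw [Pi.add_apply, ha, hb, add_zero]
  · intro c a _ ha
    rw [Pi.smul_apply, ha, smul_zero]

theorem Hs_comp {n k p : ℕ} [NeZero p] (ρ : Fin n → Fin k) (𝓖 : Finset (Finset (Fin n)))
    (I : Finset (Fin k)) (hI : ∀ A ∈ 𝓖, ∃ i ∈ I, ∀ x, x ∈ A ↔ ρ x = i) (γ : Fin n → ZMod p)
    (hγ : γ ∈ Hs p 𝓖) : ∃ α : Fin k → ZMod p, supp α ⊆ I ∧ γ = α ∘ ρ := by
  rw [mem_Hs] at hγ
  refine Submodule.span_induction
    (p := fun γ _ => ∃ α : Fin k → ZMod p, supp α ⊆ I ∧ γ = α ∘ ρ) ?_ ?_ ?_ ?_ hγ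
  · rintro _ ⟨A, hA, rfl⟩
    obtain ⟨i, hi, hAi⟩ := hI A hA
    refine ⟨fun j => if j = i then 1 else 0, ?_, ?_⟩
    · intro j hj
      rw [mem_supp] at hj
      by_contra hc
      apply hj
      rw [if_neg]
      rintro rfl
      exact hc hi
    · funext x
      simp only [Function.comp_apply, hAi x]
  · refine ⟨0, ?_, rfl⟩
    intro j hj
    rw [mem_supp] at hj
    exact absurd rfl hj
  · rintro a b _ _ ⟨α, hα, rfl⟩ ⟨β, hβ, rfl⟩
    refine ⟨α + β, ?_, rfl⟩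
    intro j hj
    by_contra hc
    have h1 : α j = 0 := by
      by_contra h'
      exact hc (hα ((mem_supp _ _).2 h'))
    have h2 : β j = 0 := by
      by_contra h'
      exact hc (hβ ((mem_supp _ _).2 h'))
    exact (mem_supp _ _).1 hj (by rw [Pi.add_apply, h1, h2, add_zero])
  · rintro c a _ ⟨α, hα, rfl⟩
    refine ⟨c • α, ?_, rfl⟩
    intro j hj
    by_contra hc
    have h1 : α j = 0 := by
      by_contra h'
      exact hc (hα ((mem_supp _ _).2 h'))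
    exact (mem_supp _ _).1 hj (by rw [Pi.smul_apply, h1, smul_zero])

theorem exists_zero {k h p D g : ℕ} (hh : 0 < h) (ρ : Fin (k * h) → Fin k)
    (hρ : ∀ i, (univ.filter fun x => ρ x = i).card = h) (α : Fin k → ZMod p)
    (hα : (supp α).card < D) (𝓖 : Finset (Finset (Fin (k * h)))) (h𝓖 : ∀ A ∈ 𝓖, A.card = h)
    (hg : 𝓖.card ≤ g) (hDg : D + g ≤ k) : ∃ x, α (ρ x) = 0 ∧ ∀ A ∈ 𝓖, x ∉ A := by
  classical
  have h1 : ((supp α).biUnion fun i => univ.filter fun x => ρ x = i).card ≤ (supp α).card * h := by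
    refine card_biUnion_le.trans ?_
    rw [sum_congr rfl fun i _ => hρ i, sum_const, smul_eq_mul]
  have h2 : (𝓖.biUnion id).card ≤ g * h := by
    refine card_biUnion_le.trans ?_
    rw [sum_congr rfl fun A hA => (show (id A).card = h from h𝓖 A hA), sum_const, smul_eq_mul]
    exact Nat.mul_le_mul hg le_rfl
  have h3 : (((supp α).biUnion fun i => univ.filter fun x => ρ x = i) ∪ 𝓖.biUnion id).card <
      (univ : Finset (Fin (k * h))).card := by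
    refine (card_union_le _ _).trans_lt ?_
    rw [Finset.card_univ, Fintype.card_fin]
    have h4 : ((supp α).card + g) * h < k * h := Nat.mul_lt_mul_of_pos_right (by omega) hh
    rw [add_mul] at h4
    omega
  obtain ⟨x, _, hx⟩ := exists_mem_notMem_of_card_lt_card h3
  rw [mem_union, mem_biUnion, mem_biUnion] at hx
  push Not at hx
  refine ⟨x, ?_, fun A hA => hx.2 A hA⟩
  by_contra hc
  exact hx.1 (ρ x) ((mem_supp _ _).2 hc) (mem_filter.2 ⟨mem_univ _, rfl⟩)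

theorem sum_Aff_zero {n p : ℕ} [NeZero p] (β : Fin n → ZMod p) {x : Fin n} (hβ : β x = 0) :
    ∑ f ∈ Aff n p, (ZMod.stdAddChar (f ⬝ᵥ β) : ℂ) =
      if β = 0 then ((Aff n p).card : ℂ) else 0 := by
  classical
  split_ifs with h
  · rw [h, card_eq_sum_ones, Nat.cast_sum]
    refine sum_congr rfl fun f _ => ?_
    rw [dotProduct_zero, AddChar.map_zero_eq_one]
    simp
  · have : ∃ y, β y ≠ 0 := by
      by_contra hc
      push Not at hc
      exact h (funext hc)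
    obtain ⟨y, hy⟩ := this
    exact sum_Aff_of_ne β (x := x) (y := y) (by rw [hβ]; exact hy.symm)

open Classical in
/-- The mean of `W` on the event that the members of the family have the sum zero, times the
number of the characters. -/
theorem sum_W_fam {k h p D g : ℕ} [NeZero p] (hh : 0 < h) (ρ : Fin (k * h) → Fin k)
    (hρ : ∀ i, (univ.filter fun x => ρ x = i).card = h)
    (𝓖 : Finset (Finset (Fin (k * h)))) (h𝓖 : ∀ A ∈ 𝓖, A.card = h)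
    (hg : 𝓖.card ≤ g) (hDg : D + g ≤ k) :
    ((Hs p 𝓖).card : ℂ) * ∑ f ∈ Aff (k * h) p,
      (∑ α ∈ Lam k p D, (ZMod.stdAddChar (f ⬝ᵥ (α ∘ ρ)) : ℂ)) *
        (if ∀ A ∈ 𝓖, ∑ x ∈ A, f x = 0 then 1 else 0) =
    ∑ γ ∈ Hs p 𝓖, ∑ α ∈ Lam k p D,
      if α ∘ ρ + γ = 0 then ((Aff (k * h) p).card : ℂ) else 0 := by
  have h1 : ∀ f : Fin (k * h) → ZMod p, ((Hs p 𝓖).card : ℂ) *
      ((∑ α ∈ Lam k p D, (ZMod.stdAddChar (f ⬝ᵥ (α ∘ ρ)) : ℂ)) *
        (if ∀ A ∈ 𝓖, ∑ x ∈ A, f x = 0 then 1 else 0)) =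
      ∑ γ ∈ Hs p 𝓖, ∑ α ∈ Lam k p D, (ZMod.stdAddChar (f ⬝ᵥ (α ∘ ρ + γ)) : ℂ) := by
    intro f
    have e1 : ((Hs p 𝓖).card : ℂ) * (if ∀ A ∈ 𝓖, ∑ x ∈ A, f x = 0 then 1 else 0) =
        ∑ γ ∈ Hs p 𝓖, (ZMod.stdAddChar (f ⬝ᵥ γ) : ℂ) := by
      rw [sum_Hs, mul_ite, mul_one, mul_zero]
    rw [mul_left_comm, e1, mul_sum]
    refine sum_congr rfl fun γ _ => ?_
    rw [sum_mul]
    refine sum_congr rfl fun α _ => ?_
    rw [dotProduct_add, AddChar.map_add_eq_mul]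
  rw [mul_sum, sum_congr rfl fun f _ => h1 f, sum_comm]
  refine sum_congr rfl fun γ hγ => ?_
  rw [sum_comm]
  refine sum_congr rfl fun α hα => ?_
  obtain ⟨x, hx1, hx2⟩ := exists_zero hh ρ hρ α ((mem_Lam α).1 hα) 𝓖 h𝓖 hg hDg
  refine sum_Aff_zero (α ∘ ρ + γ) (x := x) ?_
  rw [Pi.add_apply, Function.comp_apply, hx1, Hs_zero 𝓖 γ hγ x hx2, add_zero]

open Classical in
theorem fam_nonneg {k h p D g : ℕ} [NeZero p] (hh : 0 < h) (ρ : Fin (k * h) → Fin k)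
    (hρ : ∀ i, (univ.filter fun x => ρ x = i).card = h)
    (𝓖 : Finset (Finset (Fin (k * h)))) (h𝓖 : ∀ A ∈ 𝓖, A.card = h)
    (hg : 𝓖.card ≤ g) (hDg : D + g ≤ k) :
    0 ≤ ∑ f ∈ Aff (k * h) p, (∑ α ∈ Lam k p D, (ZMod.stdAddChar (f ⬝ᵥ (α ∘ ρ)) : ℂ)).re *
        (if ∀ A ∈ 𝓖, ∑ x ∈ A, f x = 0 then 1 else 0) := by
  have h1 := congrArg Complex.re (sum_W_fam (p := p) (D := D) hh ρ hρ 𝓖 h𝓖 hg hDg)
  have hH : (0 : ℝ) < (Hs p 𝓖).card := by exact_mod_cast Hs_pos 𝓖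
  have e1 : (∑ f ∈ Aff (k * h) p, (∑ α ∈ Lam k p D, (ZMod.stdAddChar (f ⬝ᵥ (α ∘ ρ)) : ℂ)) *
      (if ∀ A ∈ 𝓖, ∑ x ∈ A, f x = 0 then 1 else 0)).re =
      ∑ f ∈ Aff (k * h) p, (∑ α ∈ Lam k p D, (ZMod.stdAddChar (f ⬝ᵥ (α ∘ ρ)) : ℂ)).re *
        (if ∀ A ∈ 𝓖, ∑ x ∈ A, f x = 0 then 1 else 0) := by
    rw [Complex.re_sum]
    refine sum_congr rfl fun f _ => ?_
    split_ifs <;> simp
  rw [← Complex.ofReal_natCast, Complex.re_ofReal_mul, e1] at h1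
  refine nonneg_of_mul_nonneg_right ?_ hH
  rw [h1, Complex.re_sum]
  refine sum_nonneg fun γ _ => ?_
  rw [Complex.re_sum]
  refine sum_nonneg fun α _ => ?_
  split_ifs <;> simp

open Classical in
theorem fam_ge {k h p D g : ℕ} [NeZero p] (hh : 0 < h) (ρ : Fin (k * h) → Fin k)
    (hρ : ∀ i, (univ.filter fun x => ρ x = i).card = h)
    (𝓖 : Finset (Finset (Fin (k * h)))) (h𝓖 : ∀ A ∈ 𝓖, ∃ i, ∀ x, x ∈ A ↔ ρ x = i)
    (hg : 𝓖.card ≤ g) (hDg : D + g ≤ k) (hgD : g < D) :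
    ((Aff (k * h) p).card : ℝ) ≤
      ∑ f ∈ Aff (k * h) p, (∑ α ∈ Lam k p D, (ZMod.stdAddChar (f ⬝ᵥ (α ∘ ρ)) : ℂ)).re *
        (if ∀ A ∈ 𝓖, ∑ x ∈ A, f x = 0 then 1 else 0) := by
  have h𝓖' : ∀ A ∈ 𝓖, A.card = h := by
    intro A hA
    obtain ⟨i, hi⟩ := h𝓖 A hA
    refine Eq.trans ?_ (hρ i)
    congr 1
    ext x
    simp [hi x]
  have h1 := congrArg Complex.re (sum_W_fam (p := p) (D := D) hh ρ hρ 𝓖 h𝓖' hg hDg)
  have hH : (0 : ℝ) < (Hs p 𝓖).card := by exact_mod_cast Hs_pos 𝓖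
  have e1 : (∑ f ∈ Aff (k * h) p, (∑ α ∈ Lam k p D, (ZMod.stdAddChar (f ⬝ᵥ (α ∘ ρ)) : ℂ)) *
      (if ∀ A ∈ 𝓖, ∑ x ∈ A, f x = 0 then 1 else 0)).re =
      ∑ f ∈ Aff (k * h) p, (∑ α ∈ Lam k p D, (ZMod.stdAddChar (f ⬝ᵥ (α ∘ ρ)) : ℂ)).re *
        (if ∀ A ∈ 𝓖, ∑ x ∈ A, f x = 0 then 1 else 0) := by
    rw [Complex.re_sum]
    refine sum_congr rfl fun f _ => ?_
    split_ifs <;> simp
  rw [← Complex.ofReal_natCast, Complex.re_ofReal_mul, e1] at h1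
  refine le_of_mul_le_mul_left ?_ hH
  rw [h1, Complex.re_sum, ← nsmul_eq_mul]
  have hne : Nonempty (Fin k) := ⟨⟨0, by omega⟩⟩
  choose! idx hidx using h𝓖
  refine card_nsmul_le_sum _ _ _ fun γ hγ => ?_
  obtain ⟨α, hα, rfl⟩ := Hs_comp ρ 𝓖 (𝓖.image idx)
    (fun A hA => ⟨idx A, mem_image_of_mem _ hA, hidx A hA⟩) γ hγ
  have hmem : -α ∈ Lam k p D := by
    rw [mem_Lam, supp_neg]
    exact lt_of_le_of_lt ((card_le_card hα).trans (card_image_le.trans hg)) hgD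
  rw [Complex.re_sum]
  have hz : ∀ β ∈ Lam k p D, 0 ≤
      ((if β ∘ ρ + α ∘ ρ = 0 then ((Aff (k * h) p).card : ℂ) else 0) : ℂ).re := by
    intro β _
    split_ifs <;> simp
  refine le_trans ?_ (single_le_sum hz hmem)
  have : (-α) ∘ ρ + α ∘ ρ = 0 := by
    funext x
    simp
  rw [if_pos this]
  simp

end SetCoverLPF
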