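import Pool.Agent.Lib.MP_8fffab_lc_LP2.Defs
import Pool.Agent.Lib.MP_8fffab_lc_LP2.Core
import Pool.Agent.Lib.MP_8fffab_lc_LP2.Fam
import Pool.Agent.Lib.MP_678664_lc_h67.Farkas

/-!
# The slack matrix of a formulation
-/

set_option autoImplicit false

open Finset

namespace SetCoverLPF

/-- the balanced map -/
def bal (k h : ℕ) (x : Fin (k * h)) : Fin k := (finProdFinEquiv.symm x).1

theorem card_bal (k h : ℕ) (i : Fin k) : (univ.filter fun x => bal k h x = i).card = h := by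
  classical
  have h1 : (univ.filter fun x => bal k h x = i) =
      (univ : Finset (Fin h)).map ⟨fun j => finProdFinEquiv (i, j), fun a b hab => by
        have := finProdFinEquiv.injective hab
        exact (Prod.mk.inj this).2⟩ := by
    ext x
    simp only [mem_filter, mem_univ, true_and, mem_map, Function.Embedding.coeFn_mk, bal]
    constructor
    · intro hx
      refine ⟨(finProdFinEquiv.symm x).2, ?_⟩
      rw [← hx]
      exact finProdFinEquiv.apply_symm_apply x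
    · rintro ⟨j, rfl⟩
      rw [Equiv.symm_apply_apply]
  rw [h1, card_map, Finset.card_univ, Fintype.card_fin]

/-- the parts of a map -/
noncomputable def partOf {k h : ℕ} (ρ : Fin (k * h) → Fin k) (i : Fin k) : Finset (Fin (k * h)) :=
  univ.filter fun x => ρ x = i

theorem mem_partOf {k h : ℕ} (ρ : Fin (k * h) → Fin k) (i : Fin k) (x : Fin (k * h)) :
    x ∈ partOf ρ i ↔ ρ x = i := by
  simp [partOf]

theorem partOf_injective {k h : ℕ} (ρ : Fin (k * h) → Fin k) (hρ : Function.Surjective ρ) :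
    Function.Injective (partOf ρ) := by
  intro i j hij
  obtain ⟨x, hx⟩ := hρ i
  have : x ∈ partOf ρ j := by
    rw [← hij, mem_partOf]
    exact hx
  rw [mem_partOf] at this
  rw [← hx, this]

open Classical in
/-- the cover of a map -/
noncomputable def coverOf {k h : ℕ} (ρ : Fin (k * h) → Fin k) : Finset (Finset (Fin (k * h))) :=
  univ.image (partOf ρ)

theorem isCover_coverOf {k h : ℕ} (ρ : Fin (k * h) → Fin k) (hρ : Function.Surjective ρ)
    (hc : ∀ i, (partOf ρ i).card = h) : IsCover k h (coverOf ρ) := by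
  classical
  refine ⟨?_, ?_, ?_⟩
  · rw [coverOf, card_image_of_injective _ (partOf_injective ρ hρ), Finset.card_univ,
      Fintype.card_fin]
  · intro A hA
    obtain ⟨i, _, rfl⟩ := mem_image.1 hA
    exact hc i
  · intro x
    exact ⟨partOf ρ (ρ x), mem_image_of_mem _ (mem_univ _), (mem_partOf _ _ _).2 rfl⟩

/-- a cover is a partition -/
theorem IsCover.disjoint {k h : ℕ} {P : Finset (Finset (Fin (k * h)))} (hP : IsCover k h P) :
    (P : Set (Finset (Fin (k * h)))).PairwiseDisjoint id := by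
  classical
  obtain ⟨h1, h2, h3⟩ := hP
  -- double counting
  have e1 : ∑ A ∈ P, A.card = k * h := by
    rw [sum_congr rfl h2, sum_const, h1, smul_eq_mul]
  have e2 : P.biUnion id = univ := by
    ext x
    simp only [mem_biUnion, id, mem_univ, iff_true]
    exact h3 x
  have e3 : (P.biUnion id).card = ∑ A ∈ P, (id A).card := by
    rw [e2, Finset.card_univ, Fintype.card_fin]
    exact e1.symm
  have e4 : ∀ x : Fin (k * h), (P.filter fun A => x ∈ A).card = 1 := by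
    have e5 : ∑ x : Fin (k * h), (P.filter fun A => x ∈ A).card = ∑ x : Fin (k * h), 1 := by
      have e6 := sum_card_bipartiteAbove_eq_sum_card_bipartiteBelow
        (s := (univ : Finset (Fin (k * h)))) (t := P) (fun x A => x ∈ A)
      simp only [bipartiteAbove, bipartiteBelow] at e6
      rw [e6]
      simp only [sum_const, Finset.card_univ, Fintype.card_fin, smul_eq_mul, mul_one]
      refine Eq.trans (sum_congr rfl fun A _ => ?_) e1
      congr 1
      ext x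
      simp
    have e6 : ∀ x ∈ (univ : Finset (Fin (k * h))), 1 ≤ (P.filter fun A => x ∈ A).card := by
      intro x _
      obtain ⟨A, hA, hx⟩ := h3 x
      exact card_pos.2 ⟨A, mem_filter.2 ⟨hA, hx⟩⟩
    have e7 := (sum_eq_sum_iff_of_le e6).1 e5.symm
    intro x
    exact (e7 x (mem_univ x)).symm
  intro A hA B hB hAB
  rw [Function.onFun, disjoint_left]
  intro x hxA hxB
  obtain ⟨C, hC⟩ := card_eq_one.1 (e4 x)
  have hA' : A ∈ P.filter fun A => x ∈ A := mem_filter.2 ⟨hA, hxA⟩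
  have hB' : B ∈ P.filter fun A => x ∈ A := mem_filter.2 ⟨hB, hxB⟩
  rw [hC, mem_singleton] at hA' hB'
  exact hAB (hA'.trans hB'.symm)

/-- the no-instance of `f` -/
noncomputable def noInst {k h p : ℕ} (f : Fin (k * h) → ZMod p) :
    Finset (Finset (Fin (k * h))) :=
  univ.filter fun A => A.card = h ∧ ∑ x ∈ A, f x = 0

theorem mem_noInst {k h p : ℕ} (f : Fin (k * h) → ZMod p) (A : Finset (Fin (k * h))) :
    A ∈ noInst f ↔ A.card = h ∧ ∑ x ∈ A, f x = 0 := by
  simp [noInst]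

theorem not_subset_noInst {k h p : ℕ} (hp : 1 < p) (f : Fin (k * h) → ZMod p)
    (hf : ∑ x, f x = 1) (P : Finset (Finset (Fin (k * h)))) (hP : IsCover k h P) :
    ¬ P ⊆ noInst f := by
  classical
  intro hsub
  have e2 : P.biUnion id = univ := by
    ext x
    simp only [mem_biUnion, id, mem_univ, iff_true]
    exact hP.2.2 x
  have e1 : ∑ x, f x = ∑ A ∈ P, ∑ x ∈ A, f x := by
    rw [← e2, sum_biUnion hP.disjoint]
    rfl
  rw [hf, sum_congr rfl fun A hA => ((mem_noInst f A).1 (hsub hA)).2, sum_const_zero] at e1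
  have : Fact (1 < p) := ⟨hp⟩
  exact one_ne_zero e1

/-- normalisation of a nonnegative factorisation -/
theorem normalise {R : ℕ} {F S : Type*} [Fintype F] [Nonempty F] (a : Fin R → F → ℝ)
    (b : Fin R → S → ℝ) (ha : ∀ j f, 0 ≤ a j f) (hb : ∀ j s, 0 ≤ b j s) (K : ℝ)
    (hab : ∀ j f s, a j f * b j s ≤ K) :
    ∃ (a' : Fin R → F → ℝ) (b' : Fin R → S → ℝ), (∀ j f, 0 ≤ a' j f) ∧ (∀ j f, a' j f ≤ 1) ∧
      (∀ j f, a j f = 0 → a' j f = 0) ∧ (∀ j s, 0 ≤ b' j s) ∧ (∀ j s, b' j s ≤ K) ∧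
      ∀ j f s, a' j f * b' j s = a j f * b j s := by
  have h1 : ∀ j, ∃ f₀, ∀ f, a j f ≤ a j f₀ := fun j => by
    obtain ⟨f₀, _, hf₀⟩ := exists_max_image univ (a j) univ_nonempty
    exact ⟨f₀, fun f => hf₀ f (mem_univ f)⟩
  choose f₀ hf₀ using h1
  refine ⟨fun j f => a j f / a j (f₀ j), fun j s => a j (f₀ j) * b j s, ?_, ?_, ?_, ?_, ?_, ?_⟩
  · exact fun j f => div_nonneg (ha _ _) (ha _ _)
  · exact fun j f => div_le_one_of_le₀ (hf₀ j f) (ha _ _)
  · intro j f h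
    simp [h]
  · exact fun j s => mul_nonneg (ha _ _) (hb _ _)
  · exact fun j s => hab j _ s
  · intro j f s
    rcases (ha j (f₀ j)).eq_or_lt with h | h
    · have h2 : a j f = 0 := le_antisymm ((hf₀ j f).trans_eq h.symm) (ha j f)
      simp [← h, h2]
    · field_simp

open Classical in
/-- The mean of the value of the objective function at a cover. -/
theorem sum_wt {k h p D : ℕ} [Fact p.Prime] (hh : 0 < h) (hDk : k ≤ 2 * D) (hDk' : 2 * D ≤ k + 1)
    (ρ : Fin (k * h) → Fin k) (hρ : ∀ i, (univ.filter fun x => ρ x = i).card = h)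
    (w : Finset (Finset (Fin (k * h))) → ℝ) (hw0 : ∀ 𝓖, 0 ≤ w 𝓖)
    (hws : ∀ 𝓖, k ≤ 2 * 𝓖.card → w 𝓖 = 0) :
    (∑ 𝓖 ∈ (coverOf ρ).powerset, w 𝓖) * (Aff (k * h) p).card ≤
      ∑ f ∈ Aff (k * h) p, (WW p D ρ f).re * ∑ 𝓖 ∈ (noInst f).powerset, w 𝓖 := by
  have e1 : ∀ f : Fin (k * h) → ZMod p, (WW p D ρ f).re * ∑ 𝓖 ∈ (noInst f).powerset, w 𝓖 =
      ∑ 𝓖 : Finset (Finset (Fin (k * h))), w 𝓖 * ((WW p D ρ f).re *
        (if (∀ A ∈ 𝓖, A.card = h) ∧ ∀ A ∈ 𝓖, ∑ x ∈ A, f x = 0 then 1 else 0)) := by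
    intro f
    rw [mul_sum, ← sum_subset (subset_univ (noInst f).powerset)]
    · refine sum_congr rfl fun 𝓖 h𝓖 => ?_
      have : (∀ A ∈ 𝓖, A.card = h) ∧ ∀ A ∈ 𝓖, ∑ x ∈ A, f x = 0 := by
        rw [mem_powerset] at h𝓖
        exact ⟨fun A hA => ((mem_noInst f A).1 (h𝓖 hA)).1,
          fun A hA => ((mem_noInst f A).1 (h𝓖 hA)).2⟩
      rw [if_pos this]
      ring
    · intro 𝓖 _ h𝓖
      have : ¬ ((∀ A ∈ 𝓖, A.card = h) ∧ ∀ A ∈ 𝓖, ∑ x ∈ A, f x = 0) := by
        intro hc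
        apply h𝓖
        rw [mem_powerset]
        exact fun A hA => (mem_noInst f A).2 ⟨hc.1 A hA, hc.2 A hA⟩
      rw [if_neg this]
      ring
  rw [sum_congr rfl fun f _ => e1 f, sum_comm]
  have e2 : ∀ 𝓖 : Finset (Finset (Fin (k * h))), ∑ f ∈ Aff (k * h) p, w 𝓖 * ((WW p D ρ f).re *
        (if (∀ A ∈ 𝓖, A.card = h) ∧ ∀ A ∈ 𝓖, ∑ x ∈ A, f x = 0 then 1 else 0)) =
      w 𝓖 * ∑ f ∈ Aff (k * h) p, (WW p D ρ f).re *
        (if (∀ A ∈ 𝓖, A.card = h) ∧ ∀ A ∈ 𝓖, ∑ x ∈ A, f x = 0 then 1 else 0) := by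
    intro 𝓖
    rw [mul_sum]
  rw [sum_congr rfl fun 𝓖 _ => e2 𝓖, sum_mul]
  refine le_trans (sum_le_sum fun 𝓖 h𝓖 => ?_) (sum_le_sum_of_subset_of_nonneg
    (subset_univ (coverOf ρ).powerset) fun 𝓖 _ _ => ?_)
  · rcases le_or_gt k (2 * 𝓖.card) with hk | hk
    · rw [hws 𝓖 hk, zero_mul, zero_mul]
    · refine mul_le_mul_of_nonneg_left ?_ (hw0 𝓖)
      rw [mem_powerset] at h𝓖
      have h1 : ∀ A ∈ 𝓖, ∃ i, ∀ x, x ∈ A ↔ ρ x = i := by
        intro A hA
        obtain ⟨i, _, rfl⟩ := mem_image.1 (h𝓖 hA)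
        exact ⟨i, fun x => mem_partOf ρ i x⟩
      have h2 : ∀ A ∈ 𝓖, A.card = h := by
        intro A hA
        obtain ⟨i, _, rfl⟩ := mem_image.1 (h𝓖 hA)
        exact hρ i
      refine (fam_ge (p := p) (D := D) hh ρ hρ 𝓖 h1 le_rfl (by omega) (by omega)).trans_eq ?_
      refine sum_congr rfl fun f _ => ?_
      rw [WW]
      congr 1
      exact if_congr (Iff.intro (fun h => ⟨fun A hA => h2 A hA, h⟩) fun h => h.2) rfl rfl
  · rcases le_or_gt k (2 * 𝓖.card) with hk | hk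
    · rw [hws 𝓖 hk, zero_mul]
    · refine mul_nonneg (hw0 𝓖) ?_
      by_cases h2 : ∀ A ∈ 𝓖, A.card = h
      · refine (fam_nonneg (p := p) (D := D) hh ρ hρ 𝓖 h2 le_rfl (by omega)).trans_eq ?_
        refine sum_congr rfl fun f _ => ?_
        rw [WW]
        congr 1
        exact if_congr (Iff.intro (fun h => ⟨fun A hA => h2 A hA, h⟩) fun h => h.2) rfl rfl
      · refine le_of_eq ?_
        symm
        refine sum_eq_zero fun f _ => ?_
        rw [if_neg (fun h => h2 h.1), mul_zero]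

/-- The lower bound for the number of inequalities. -/
theorem lower (k : ℕ) (hk : 3 ≤ k) : ∃ c : ℝ, 0 < c ∧ ∃ t : ℕ, ∀ h : ℕ, 1 ≤ h →
    ∀ ε : ℝ, 0 < ε → ∀ r : ℕ, Nonempty (LPFormulation k h ε r) →
      c * ε ^ t * 2 ^ (k * h) / (k * h + 1 : ℕ) ≤ r + 1 := by
  classical
  set D := (k + 1) / 2 with hD
  obtain ⟨p, t, hp, hDt, h1⟩ := SetCoverMono.one_dim k D
  have hp0 : (0 : ℝ) < p := by
    have := hp.out.pos
    exact_mod_cast this
  have hk0 : (0 : ℝ) < k := by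
    have : 0 < k := by omega
    exact_mod_cast this
  set L : ℝ := ((Lam k p D).card : ℝ) with hL
  have hL0 : 0 < L := by
    rw [hL]
    have : (0 : Fin k → ZMod p) ∈ Lam k p D := by
      rw [mem_Lam]
      have : supp (0 : Fin k → ZMod p) = ∅ := by
        ext i
        simp [mem_supp]
      rw [this]
      simp only [card_empty]
      omega
    exact_mod_cast card_pos.2 ⟨_, this⟩
  refine ⟨1 / ((2 * L) ^ (2 * t) * (2 * p * L ^ (D + 1))), by positivity, 2 * t + 1, ?_⟩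
  rintro h hh ε hε r ⟨Q⟩
  -- the maps
  have hcard : ∀ (σ : Equiv.Perm (Fin (k * h))) i,
      (univ.filter fun x => (bal k h ∘ σ) x = i).card = h := by
    intro σ i
    refine (card_equiv σ ?_).trans (card_bal k h i)
    intro x
    simp
  have hsurj : ∀ σ : Equiv.Perm (Fin (k * h)), Function.Surjective (bal k h ∘ σ) := by
    intro σ i
    have : 0 < (univ.filter fun x => (bal k h ∘ σ) x = i).card := by rw [hcard]; exact hh
    obtain ⟨x, hx⟩ := card_pos.1 this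
    exact ⟨x, (mem_filter.1 hx).2⟩
  have hcov : ∀ σ : Equiv.Perm (Fin (k * h)), IsCover k h (coverOf (bal k h ∘ σ)) :=
    fun σ => isCover_coverOf _ (hsurj σ) (hcard σ)
  have huni : ∀ f : Fin (k * h) → ZMod p, Uniform k h (noInst f) :=
    fun f A hA => ((mem_noInst f A).1 hA).1
  -- Farkas
  have hF : ∀ f : Fin (k * h) → ZMod p, ∃ l : Fin (r + 1) → ℝ, (∀ i, 0 ≤ l i) ∧
      (f ∉ Aff (k * h) p → ∀ i, l i = 0) ∧ (f ∈ Aff (k * h) p →
      ∀ y : Fin Q.d → ℝ, (∀ j, Q.c j ⬝ᵥ y = Q.e j) →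
        (1 - ε) - (Q.obj (noInst f) ⬝ᵥ y + Q.obj0 (noInst f)) =
          l 0 + ∑ i : Fin r, l i.succ * (Q.b i - Q.a i ⬝ᵥ y)) := by
    intro f
    by_cases hf : f ∈ Aff (k * h) p
    · obtain ⟨l, hl, hl2⟩ := Pool.Agent.Lib.MP_678664_lc_h67.farkas_affine Q.a Q.b Q.c Q.e
        (Q.obj (noInst f)) (Q.obj0 (noInst f)) (1 - ε)
        (Q.point (coverOf (bal k h ∘ (1 : Equiv.Perm (Fin (k * h))))))
        (Q.point_le _ (hcov 1)) (Q.point_eq _ (hcov 1))
        (Q.sound _ (huni f)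
          (fun P hP => not_subset_noInst hp.out.one_lt f ((mem_Aff f).1 hf) P hP))
      exact ⟨l, hl, fun h => absurd hf h, fun _ => hl2⟩
    · exact ⟨fun _ => 0, fun _ => le_rfl, fun _ _ => rfl, fun h => absurd h hf⟩
  choose l hl0 hlz hl using hF
  let a : Fin (r + 1) → (Fin (k * h) → ZMod p) → ℝ := fun j f => l f j
  let b : Fin (r + 1) → Equiv.Perm (Fin (k * h)) → ℝ := fun j σ =>
    Fin.cases (motive := fun _ => ℝ) 1
      (fun i => Q.b i - Q.a i ⬝ᵥ Q.point (coverOf (bal k h ∘ σ))) j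
  have hb0 : ∀ j σ, 0 ≤ b j σ := by
    intro j σ
    refine Fin.cases ?_ (fun i => ?_) j
    · exact zero_le_one
    · exact sub_nonneg.2 (Q.point_le _ (hcov σ) i)
  have hab : ∀ f ∈ Aff (k * h) p, ∀ σ, ∑ j, a j f * b j σ =
      1 - ε - ∑ 𝓖 ∈ (noInst f).powerset, Q.wt (coverOf (bal k h ∘ σ)) 𝓖 := by
    intro f hf σ
    rw [← Q.point_val _ (hcov σ) _ (huni f), hl f hf _ (Q.point_eq _ (hcov σ)),
      Fin.sum_univ_succ]
    simp only [a, b, Fin.cases_zero, Fin.cases_succ, mul_one]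
  have hval0 : ∀ (f : Fin (k * h) → ZMod p) (σ : Equiv.Perm (Fin (k * h))),
      0 ≤ ∑ 𝓖 ∈ (noInst f).powerset, Q.wt (coverOf (bal k h ∘ σ)) 𝓖 :=
    fun f σ => sum_nonneg fun 𝓖 _ => Q.wt_nonneg _ _
  have hK : ∀ j f σ, a j f * b j σ ≤ 1 := by
    intro j f σ
    by_cases hf : f ∈ Aff (k * h) p
    · have e1 : a j f * b j σ ≤ ∑ j, a j f * b j σ :=
        single_le_sum (f := fun j => a j f * b j σ)
          (fun j _ => mul_nonneg (hl0 f j) (hb0 j σ)) (mem_univ j)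
      rw [hab f hf σ] at e1
      have := hval0 f σ
      linarith
    · have : a j f = 0 := hlz f hf j
      rw [this, zero_mul]
      exact zero_le_one
  obtain ⟨a', b', ha0, ha1, haz, hb0', hb1, hab'⟩ := normalise a b (fun j f => hl0 f j) hb0 1 hK
  have hsum : ∀ f ∈ Aff (k * h) p, ∀ σ, ∑ j, a' j f * b' j σ =
      1 - ε - ∑ 𝓖 ∈ (noInst f).powerset, Q.wt (coverOf (bal k h ∘ σ)) 𝓖 := by
    intro f hf σ
    rw [← hab f hf σ]
    exact sum_congr rfl fun j _ => hab' j f σ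
  have hcore := core_norm (k := k) (p := p) (h := h) (D := D) (t := t) (r := r + 1) (by omega) hh
    (by omega) (by omega) hDt h1 (bal k h) (card_bal k h) hε a' b' ha0 ha1
    (fun j f hf => haz j f (hlz f hf j)) hb0' hb1
    (fun f hf σ => by
      rw [hsum f hf σ]
      have := hval0 f σ
      linarith)
    (fun σ => by
      have e1 := sum_wt (D := D) (p := p) hh (by omega) (by omega) (bal k h ∘ σ) (hcard σ)
        (Q.wt (coverOf (bal k h ∘ σ))) (Q.wt_nonneg _) (Q.wt_small _)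
      have e2 : 1 ≤ ∑ 𝓖 ∈ (coverOf (bal k h ∘ σ)).powerset, Q.wt (coverOf (bal k h ∘ σ)) 𝓖 := by
        rw [← Q.point_val _ (hcov σ) _ (hcov σ).2.1]
        exact Q.complete _ (hcov σ) _ (hcov σ).2.1 (Finset.Subset.refl _)
      have e3 : ∑ f ∈ Aff (k * h) p, (WW p D (bal k h ∘ σ) f).re = (Aff (k * h) p).card := by
        have := congrArg Complex.re (sum_W (p := p) (D := D) (by omega) (by omega)
          (bal k h ∘ σ) (hsurj σ))
        rw [Complex.re_sum, Complex.natCast_re] at this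
        exact this
      have e4 : ∑ f ∈ Aff (k * h) p, (WW p D (bal k h ∘ σ) f).re * ∑ j, a' j f * b' j σ =
          (1 - ε) * (Aff (k * h) p).card - ∑ f ∈ Aff (k * h) p, (WW p D (bal k h ∘ σ) f).re *
            ∑ 𝓖 ∈ (noInst f).powerset, Q.wt (coverOf (bal k h ∘ σ)) 𝓖 := by
        rw [← e3, mul_sum, ← sum_sub_distrib]
        refine sum_congr rfl fun f hf => ?_
        rw [hsum f hf σ]
        ring
      rw [e4]
      have e5 : (1 : ℝ) * (Aff (k * h) p).card ≤ (∑ 𝓖 ∈ (coverOf (bal k h ∘ σ)).powerset,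
          Q.wt (coverOf (bal k h ∘ σ)) 𝓖) * (Aff (k * h) p).card :=
        mul_le_mul_of_nonneg_right e2 (Nat.cast_nonneg _)
      linarith)
  rw [← hL] at hcore
  have hn : (0 : ℝ) < (k * h + 1 : ℕ) := by positivity
  rw [div_le_iff₀ hn, one_div, mul_assoc, inv_mul_le_iff₀ (by positivity)]
  have e1 : ε * (ε / (2 * L)) ^ (2 * t) * 2 ^ (k * h) =
      ε ^ (2 * t + 1) * 2 ^ (k * h) / (2 * L) ^ (2 * t) := by
    rw [div_pow, pow_succ]
    ring
  rw [e1, div_le_iff₀ (by positivity)] at hcore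
  refine hcore.trans_eq ?_
  push_cast
  ring

end SetCoverLPF
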