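import Pool.Agent.Lib.MP_8fffab_lc_LP2.Defs

/-!
# The dynamic program over the subsets as a linear program
-/

set_option autoImplicit false

open Finset

namespace SetCoverLPF

/-- the weights of the linear objective functions -/
noncomputable def lwt {k h : ℕ} (P 𝓖 : Finset (Finset (Fin (k * h)))) : ℝ :=
  if 𝓖.card = 1 ∧ 𝓖 ⊆ P then 1 / k else 0

theorem sum_lwt {k h : ℕ} (P 𝓕 : Finset (Finset (Fin (k * h)))) :
    ∑ 𝓖 ∈ 𝓕.powerset, lwt P 𝓖 = ((P ∩ 𝓕).card : ℕ) / k := by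
  classical
  simp only [lwt]
  rw [← sum_filter, sum_const, nsmul_eq_mul, mul_one_div]
  congr 2
  have : (𝓕.powerset.filter fun 𝓖 => 𝓖.card = 1 ∧ 𝓖 ⊆ P) = (P ∩ 𝓕).powersetCard 1 := by
    ext 𝓖
    rw [mem_filter, mem_powerset, mem_powersetCard, subset_inter_iff]
    tauto
  rw [this, card_powersetCard, Nat.choose_one_right]

/-- A formulation with arbitrary finite index types. -/
theorem mk_of_types {k h r : ℕ} {ε : ℝ} (hk : 3 ≤ k) {κ μ : Type} [Fintype κ] [Fintype μ]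
    (a : Fin r → κ → ℝ) (b : Fin r → ℝ) (c : μ → κ → ℝ) (e : μ → ℝ)
    (point : Finset (Finset (Fin (k * h))) → κ → ℝ) (obj : Finset (Finset (Fin (k * h))) → κ → ℝ)
    (obj0 : Finset (Finset (Fin (k * h))) → ℝ)
    (point_le : ∀ P, IsCover k h P → ∀ i, a i ⬝ᵥ point P ≤ b i)
    (point_eq : ∀ P, IsCover k h P → ∀ j, c j ⬝ᵥ point P = e j)
    (obj_point : ∀ 𝓕, Uniform k h 𝓕 → ∀ P, IsCover k h P →
      obj 𝓕 ⬝ᵥ point P + obj0 𝓕 = ((P ∩ 𝓕).card : ℕ))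
    (sound : ∀ 𝓕, Uniform k h 𝓕 → (∀ P, IsCover k h P → ¬ P ⊆ 𝓕) → ∀ y : κ → ℝ,
      (∀ i, a i ⬝ᵥ y ≤ b i) → (∀ j, c j ⬝ᵥ y = e j) → obj 𝓕 ⬝ᵥ y + obj0 𝓕 ≤ k - ε) :
    Nonempty (LPFormulation k h (ε / k) r) := by
  classical
  have hk0 : (0 : ℝ) < k := by
    have : 0 < k := by omega
    exact_mod_cast this
  let E := Fintype.equivFin κ
  let G := Fintype.equivFin μ
  have hE : ∀ (u : κ → ℝ) (y : Fin (Fintype.card κ) → ℝ), (u ∘ E.symm) ⬝ᵥ y = u ⬝ᵥ (y ∘ E) := by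
    intro u y
    exact (comp_equiv_symm_dotProduct u y E)
  have hEE : ∀ (u v : κ → ℝ), (u ∘ E.symm) ⬝ᵥ (v ∘ E.symm) = u ⬝ᵥ v := by
    intro u v
    rw [hE]
    congr 1
    funext x
    simp
  refine ⟨{
    d := Fintype.card κ
    m := Fintype.card μ
    a := fun i => a i ∘ E.symm
    b := b
    c := fun j => c (G.symm j) ∘ E.symm
    e := fun j => e (G.symm j)
    point := fun P => point P ∘ E.symm
    obj := fun 𝓕 => (1 / k : ℝ) • (obj 𝓕 ∘ E.symm)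
    obj0 := fun 𝓕 => (1 / k : ℝ) * obj0 𝓕
    wt := lwt
    wt_nonneg := ?_
    wt_small := ?_
    point_le := ?_
    point_eq := ?_
    point_val := ?_
    complete := ?_
    sound := ?_ }⟩
  · intro P 𝓖
    unfold lwt
    split_ifs
    · positivity
    · exact le_rfl
  · intro P 𝓖 h𝓖
    unfold lwt
    rw [if_neg]
    rintro ⟨h1, _⟩
    omega
  · intro P hP i
    rw [hEE]
    exact point_le P hP i
  · intro P hP j
    rw [hEE]
    exact point_eq P hP _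
  · intro P hP 𝓕 h𝓕
    rw [smul_dotProduct, hEE, smul_eq_mul, ← mul_add, obj_point 𝓕 h𝓕 P hP, sum_lwt]
    ring
  · intro P hP 𝓕 h𝓕 hsub
    rw [smul_dotProduct, hEE, smul_eq_mul, ← mul_add, obj_point 𝓕 h𝓕 P hP,
      inter_eq_left.2 hsub, hP.1]
    exact (one_div_mul_cancel hk0.ne').ge
  · intro 𝓕 h𝓕 hno y hy1 hy2
    rw [smul_dotProduct, hE, smul_eq_mul, ← mul_add]
    have e : (1 : ℝ) - ε / k = 1 / k * (k - ε) := by
      field_simp
    rw [e]
    refine mul_le_mul_of_nonneg_left ?_ (by positivity)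
    refine sound 𝓕 h𝓕 hno (y ∘ E) (fun i => ?_) (fun j => ?_)
    · rw [← hE]
      exact hy1 i
    · rw [← hE]
      have := hy2 (G j)
      rw [Equiv.symm_apply_apply] at this
      exact this

/-- A nonnegative factorisation of the slack matrix gives a formulation. -/
theorem of_factorisation {k h r : ℕ} {ε : ℝ} (hk : 3 ≤ k) (a : Finset (Finset (Fin (k * h))) → Fin r → ℝ)
    (b : Finset (Finset (Fin (k * h))) → Fin r → ℝ) (ha : ∀ 𝓕 j, 0 ≤ a 𝓕 j)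
    (hb : ∀ P j, 0 ≤ b P j)
    (hab : ∀ 𝓕, Uniform k h 𝓕 → (∀ P, IsCover k h P → ¬ P ⊆ 𝓕) → ∀ P, IsCover k h P →
      ∑ j, a 𝓕 j * b P j = k - ε - ((P ∩ 𝓕).card : ℕ)) :
    Nonempty (LPFormulation k h (ε / k) r) := by
  classical
  refine mk_of_types hk (κ := Finset (Fin (k * h)) ⊕ Fin r)
    (μ := {𝓕 : Finset (Finset (Fin (k * h))) // Uniform k h 𝓕 ∧ ∀ P, IsCover k h P → ¬ P ⊆ 𝓕})
    (fun i => Sum.elim 0 (Pi.single i (-1))) (fun _ => 0)
    (fun 𝓕 => Sum.elim (fun A => if A ∈ 𝓕.1 then 1 else 0) (a 𝓕.1)) (fun _ => k - ε)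
    (fun P => Sum.elim (fun A => if A ∈ P then 1 else 0) (b P))
    (fun 𝓕 => Sum.elim (fun A => if A ∈ 𝓕 then 1 else 0) 0) (fun _ => 0) ?_ ?_ ?_ ?_
  · intro P _ i
    rw [sumElim_dotProduct_sumElim, zero_dotProduct, zero_add, single_dotProduct]
    have := hb P i
    linarith
  · rintro P hP ⟨𝓕, h𝓕, hno⟩
    rw [sumElim_dotProduct_sumElim]
    have e1 : (fun A : Finset (Fin (k * h)) => if A ∈ 𝓕 then (1 : ℝ) else 0) ⬝ᵥ
        (fun A => if A ∈ P then 1 else 0) = ((P ∩ 𝓕).card : ℕ) := by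
      simp only [dotProduct, mul_ite, mul_one, mul_zero]
      rw [← sum_filter, ← sum_filter, filter_filter, sum_const, nsmul_eq_mul, mul_one]
      congr 2
      ext A
      simp
    have e2 : a 𝓕 ⬝ᵥ b P = k - ε - ((P ∩ 𝓕).card : ℕ) := hab 𝓕 h𝓕 hno P hP
    rw [e1, e2]
    ring
  · intro 𝓕 h𝓕 P hP
    rw [sumElim_dotProduct_sumElim, zero_dotProduct, add_zero, add_zero]
    simp only [dotProduct, mul_ite, mul_one, mul_zero]
    rw [← sum_filter, ← sum_filter, filter_filter, sum_const, nsmul_eq_mul, mul_one]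
    congr 2
    ext A
    simp
  · intro 𝓕 h𝓕 hno y hy1 hy2
    have e1 := hy2 ⟨𝓕, h𝓕, hno⟩
    obtain ⟨x, z, rfl⟩ : ∃ x z, y = Sum.elim x z := ⟨y ∘ Sum.inl, y ∘ Sum.inr, by simp⟩
    rw [sumElim_dotProduct_sumElim] at e1 ⊢
    have e2 : 0 ≤ a 𝓕 ⬝ᵥ z := by
      refine sum_nonneg fun j _ => mul_nonneg (ha 𝓕 j) ?_
      have := hy1 j
      rw [sumElim_dotProduct_sumElim, zero_dotProduct, zero_add, single_dotProduct] at this
      linarith
    rw [zero_dotProduct, add_zero, add_zero]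
    simp only at e1
    linarith

end SetCoverLPF
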