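import Pool.Agent.Lib.MP_8fffab_lc_LP2.Upper
import Pool.Agent.Lib.MP_8fffab_lc_LP2.Slack

/-!
# The dynamic program over the subsets as a linear program: the factorisation
-/

set_option autoImplicit false

open Finset

namespace SetCoverLPF

open Classical in
/-- the largest number of disjoint members of the family inside `B` -/
noncomputable def pack {n : ℕ} (𝓕 : Finset (Finset (Fin n))) (B : Finset (Fin n)) : ℕ :=
  (𝓕.powerset.filter fun S : Finset (Finset (Fin n)) =>
    (S : Set (Finset (Fin n))).PairwiseDisjoint id ∧ ∀ A ∈ S, A ⊆ B).sup card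

theorem le_pack {n : ℕ} {𝓕 S : Finset (Finset (Fin n))} {B : Finset (Fin n)} (hS : S ⊆ 𝓕)
    (h1 : (S : Set (Finset (Fin n))).PairwiseDisjoint id) (h2 : ∀ A ∈ S, A ⊆ B) :
    S.card ≤ pack 𝓕 B := by
  classical
  unfold pack
  refine le_sup (f := card) ?_
  rw [mem_filter, mem_powerset]
  exact ⟨hS, h1, h2⟩

theorem exists_pack {n : ℕ} (𝓕 : Finset (Finset (Fin n))) (B : Finset (Fin n)) :
    ∃ S ⊆ 𝓕, (S : Set (Finset (Fin n))).PairwiseDisjoint id ∧ (∀ A ∈ S, A ⊆ B) ∧
      S.card = pack 𝓕 B := by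
  classical
  have hne : (𝓕.powerset.filter fun S : Finset (Finset (Fin n)) =>
      (S : Set (Finset (Fin n))).PairwiseDisjoint id ∧ ∀ A ∈ S, A ⊆ B).Nonempty :=
    ⟨∅, by simp⟩
  obtain ⟨S, hS, hS2⟩ := exists_mem_eq_sup _ hne card
  rw [mem_filter, mem_powerset] at hS
  refine ⟨S, hS.1, hS.2.1, hS.2.2, ?_⟩
  unfold pack
  rw [hS2]

theorem pack_add {n : ℕ} (𝓕 : Finset (Finset (Fin n))) (B A : Finset (Fin n))
    (hBA : Disjoint B A) (hA : A.Nonempty) :
    pack 𝓕 B + (if A ∈ 𝓕 then 1 else 0) ≤ pack 𝓕 (B ∪ A) := by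
  classical
  obtain ⟨S, hS, h1, h2, h3⟩ := exists_pack 𝓕 B
  split_ifs with h
  · have hAS : A ∉ S := by
      intro hc
      have := h2 A hc
      obtain ⟨x, hx⟩ := hA
      exact disjoint_left.1 hBA (this hx) hx
    rw [← h3, ← card_insert_of_notMem hAS]
    refine le_pack (insert_subset h hS) ?_ ?_
    · rw [coe_insert, Set.pairwiseDisjoint_insert]
      refine ⟨h1, fun C hC _ => ?_⟩
      exact (disjoint_of_subset_left (h2 C hC) hBA).symm
    · intro C hC
      rcases mem_insert.1 hC with rfl | hC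
      · exact subset_union_right
      · exact (h2 C hC).trans subset_union_left
  · rw [add_zero, ← h3]
    exact le_pack hS h1 fun C hC => (h2 C hC).trans subset_union_left

theorem pack_empty {k h : ℕ} (hh : 1 ≤ h) (𝓕 : Finset (Finset (Fin (k * h))))
    (h𝓕 : Uniform k h 𝓕) : pack 𝓕 ∅ = 0 := by
  obtain ⟨S, hS, _, h2, h3⟩ := exists_pack 𝓕 ∅
  rw [← h3, card_eq_zero]
  by_contra hc
  obtain ⟨A, hA⟩ := nonempty_iff_ne_empty.2 hc
  have e1 := h𝓕 A (hS hA)
  have e2 := subset_empty.1 (h2 A hA)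
  rw [e2, card_empty] at e1
  omega

theorem pack_univ {k h : ℕ} (hh : 1 ≤ h) (𝓕 : Finset (Finset (Fin (k * h))))
    (h𝓕 : Uniform k h 𝓕) (hno : ∀ P, IsCover k h P → ¬ P ⊆ 𝓕) : pack 𝓕 univ < k := by
  classical
  obtain ⟨S, hS, h1, _, h3⟩ := exists_pack 𝓕 univ
  rw [← h3]
  by_contra hc
  push Not at hc
  have e1 : (S.biUnion id).card = S.card * h := by
    rw [card_biUnion h1, sum_congr rfl fun A hA => (show (id A).card = h from h𝓕 A (hS hA)),
      sum_const, smul_eq_mul]
  have e2 : (S.biUnion id).card ≤ k * h := by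
    refine (card_le_univ _).trans_eq ?_
    rw [Fintype.card_fin]
  have e3 : S.card = k := by
    refine le_antisymm ?_ hc
    rw [e1] at e2
    exact Nat.le_of_mul_le_mul_right e2 hh
  refine hno S ⟨e3, fun A hA => h𝓕 A (hS hA), fun x => ?_⟩ hS
  have e4 : S.biUnion id = univ := by
    rw [← card_eq_iff_eq_univ, e1, e3, Fintype.card_fin]
  have : x ∈ S.biUnion id := by
    rw [e4]
    exact mem_univ x
  simpa using this

open Classical in
/-- the potential -/
noncomputable def pot {k h : ℕ} (𝓕 : Finset (Finset (Fin (k * h)))) (B : Finset (Fin (k * h))) :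
    ℝ :=
  if B = univ then (k : ℝ) - 1 else (pack 𝓕 B : ℝ)

theorem pot_add {k h : ℕ} (hh : 1 ≤ h) (𝓕 : Finset (Finset (Fin (k * h))))
    (h𝓕 : Uniform k h 𝓕) (hno : ∀ P, IsCover k h P → ¬ P ⊆ 𝓕) (B A : Finset (Fin (k * h)))
    (hBA : Disjoint B A) (hA : A.Nonempty) :
    0 ≤ pot 𝓕 (B ∪ A) - pot 𝓕 B - (if A ∈ 𝓕 then 1 else 0) := by
  classical
  have hB : B ≠ univ := by
    rintro rfl
    obtain ⟨x, hx⟩ := hA
    exact disjoint_left.1 hBA (mem_univ x) hx
  have e1 := pack_add 𝓕 B A hBA hA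
  have e2 : (pack 𝓕 B : ℝ) + (if A ∈ 𝓕 then 1 else 0) ≤ (pack 𝓕 (B ∪ A) : ℝ) := by
    have : ((if A ∈ 𝓕 then 1 else 0 : ℕ) : ℝ) = if A ∈ 𝓕 then 1 else 0 := by
      split_ifs <;> simp
    rw [← this]
    exact_mod_cast e1
  have e3 : (pack 𝓕 (B ∪ A) : ℝ) ≤ pot 𝓕 (B ∪ A) := by
    unfold pot
    split_ifs with h
    · have := pack_univ hh 𝓕 h𝓕 hno
      rw [h]
      have e4 : (pack 𝓕 univ : ℝ) + 1 ≤ k := by exact_mod_cast this
      linarith
    · exact le_rfl
  have e4 : pot 𝓕 B = pack 𝓕 B := by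
    unfold pot
    rw [if_neg hB]
  rw [e4]
  linarith

/-- the path of the partial unions -/
def path {n : ℕ} : Finset (Fin n) → List (Finset (Fin n)) →
    List (Finset (Fin n) × Finset (Fin n))
  | _, [] => []
  | B, A :: l => (B, A) :: path (B ∪ A) l

theorem sum_count {V : Type*} [Fintype V] [BEq V] [LawfulBEq V] (f : V → ℝ) (L : List V) :
    ∑ v, f v * (L.count v : ℝ) = (L.map f).sum := by
  classical
  induction L with
  | nil => simp
  | cons a L ih =>
    simp only [List.count_cons, List.map_cons, List.sum_cons]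
    rw [← ih]
    have : ∀ v, f v * ((L.count v + if (a == v) = true then 1 else 0 : ℕ) : ℝ) =
        f v * (L.count v : ℝ) + if v = a then f a else 0 := by
      intro v
      by_cases h : v = a
      · subst h
        simp
        ring
      · have h' : ¬ a = v := fun hc => h hc.symm
        simp [h, h']
    rw [sum_congr rfl fun v _ => this v, sum_add_distrib, sum_ite_eq', if_pos (mem_univ _)]
    ring

theorem mem_path {n : ℕ} (l : List (Finset (Fin n))) : ∀ (B : Finset (Fin n)),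
    ∀ v ∈ path B l, v.2 ∈ l := by
  induction l with
  | nil => intro B v hv; simp [path] at hv
  | cons A l ih =>
    intro B v hv
    rw [path, List.mem_cons] at hv
    rcases hv with rfl | hv
    · simp
    · exact List.mem_cons_of_mem _ (ih _ v hv)

open Classical in
/-- the weights of the edges -/
noncomputable def wt {k h : ℕ} (𝓕 : Finset (Finset (Fin (k * h))))
    (v : Finset (Fin (k * h)) × Finset (Fin (k * h))) : ℝ :=
  if Disjoint v.1 v.2 then pot 𝓕 (v.1 ∪ v.2) - pot 𝓕 v.1 - (if v.2 ∈ 𝓕 then 1 else 0) else 0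

theorem wt_nonneg {k h : ℕ} (hh : 1 ≤ h) (𝓕 : Finset (Finset (Fin (k * h))))
    (h𝓕 : Uniform k h 𝓕) (hno : ∀ P, IsCover k h P → ¬ P ⊆ 𝓕)
    (v : Finset (Fin (k * h)) × Finset (Fin (k * h))) (hv : v.2.card = h) : 0 ≤ wt 𝓕 v := by
  classical
  unfold wt
  by_cases h2 : Disjoint v.1 v.2
  · rw [if_pos h2]
    refine pot_add hh 𝓕 h𝓕 hno _ _ h2 ?_
    rw [← card_pos, hv]
    exact hh
  · rw [if_neg h2]

theorem telescope {k h : ℕ} (𝓕 : Finset (Finset (Fin (k * h))))
    (l : List (Finset (Fin (k * h)))) : ∀ B : Finset (Fin (k * h)), (∀ A ∈ l, Disjoint B A) →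
      l.Pairwise Disjoint → ((path B l).map (wt 𝓕)).sum =
        pot 𝓕 (B ∪ l.foldr (· ∪ ·) ∅) - pot 𝓕 B -
          (l.map fun A => if A ∈ 𝓕 then (1 : ℝ) else 0).sum := by
  classical
  induction l with
  | nil => intro B _ _; simp [path]
  | cons A l ih =>
    intro B hB hp
    rw [List.pairwise_cons] at hp
    have hBA : Disjoint B A := hB A (by simp)
    have h1 : ∀ C ∈ l, Disjoint (B ∪ A) C := by
      intro C hC
      rw [disjoint_union_left]
      exact ⟨hB C (by simp [hC]), hp.1 C hC⟩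
    rw [path, List.map_cons, List.sum_cons, ih (B ∪ A) h1 hp.2, List.map_cons, List.sum_cons,
      List.foldr_cons, ← union_assoc]
    have : wt 𝓕 (B, A) = pot 𝓕 (B ∪ A) - pot 𝓕 B - (if A ∈ 𝓕 then 1 else 0) := by
      unfold wt
      rw [if_pos hBA]
    rw [this]
    ring

theorem mem_foldr_union {α : Type*} [DecidableEq α] (l : List (Finset α)) (x : α) :
    x ∈ l.foldr (· ∪ ·) ∅ ↔ ∃ A ∈ l, x ∈ A := by
  induction l with
  | nil => simp
  | cons A l ih => simp [ih]

/-- The linear program of the dynamic program over the subsets. -/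
theorem upper (k h : ℕ) (hk : 3 ≤ k) (hh : 1 ≤ h) :
    Nonempty (LPFormulation k h (1 / k) (2 ^ (k * h) * (k * h).choose h)) := by
  classical
  set n := k * h with hn
  let I := Finset (Fin n) × {A : Finset (Fin n) // A.card = h}
  have hI : Fintype.card I = 2 ^ n * n.choose h := by
    simp only [I]
    rw [Fintype.card_prod, Fintype.card_finset, Fintype.card_fin, Fintype.card_finset_len,
      Fintype.card_fin]
  let E : I ≃ Fin (2 ^ n * n.choose h) := Fintype.equivFinOfCardEq hI
  let a : Finset (Finset (Fin n)) → Fin (2 ^ n * n.choose h) → ℝ := fun 𝓕 j =>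
    if Uniform k h 𝓕 ∧ (∀ P, IsCover k h P → ¬ P ⊆ 𝓕) then
      wt (k := k) (h := h) 𝓕 ((E.symm j).1, (E.symm j).2.1) else 0
  let b : Finset (Finset (Fin n)) → Fin (2 ^ n * n.choose h) → ℝ := fun P j =>
    ((path ∅ P.toList).count ((E.symm j).1, (E.symm j).2.1) : ℝ)
  refine of_factorisation hk a b ?_ (fun P j => Nat.cast_nonneg _) ?_
  · intro 𝓕 j
    simp only [a]
    by_cases h1 : Uniform k h 𝓕 ∧ (∀ P, IsCover k h P → ¬ P ⊆ 𝓕)
    · rw [if_pos h1]
      exact wt_nonneg hh 𝓕 h1.1 h1.2 _ (E.symm j).2.2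
    · rw [if_neg h1]
  · intro 𝓕 h𝓕 hno P hP
    have e1 : ∀ j, a 𝓕 j * b P j = wt (k := k) (h := h) 𝓕 ((E.symm j).1, (E.symm j).2.1) *
        ((path ∅ P.toList).count ((E.symm j).1, (E.symm j).2.1) : ℝ) := by
      intro j
      simp only [a, b]
      rw [if_pos ⟨h𝓕, hno⟩]
    rw [sum_congr rfl fun j _ => e1 j]
    rw [Equiv.sum_comp E.symm (fun v : I => wt (k := k) (h := h) 𝓕 (v.1, v.2.1) *
        ((path ∅ P.toList).count (v.1, v.2.1) : ℝ))]
    have e2 : ∑ v : I, wt (k := k) (h := h) 𝓕 (v.1, v.2.1) *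
        ((path ∅ P.toList).count (v.1, v.2.1) : ℝ) =
        ∑ v : Finset (Fin n) × Finset (Fin n), wt (k := k) (h := h) 𝓕 v *
          ((path ∅ P.toList).count v : ℝ) := by
      simp only [I]
      rw [Fintype.sum_prod_type, Fintype.sum_prod_type]
      refine sum_congr rfl fun B _ => ?_
      simp only
      rw [← sum_subtype (univ.filter fun A : Finset (Fin n) => A.card = h) (by simp)
        (fun A => wt (k := k) (h := h) 𝓕 (B, A) * ((path ∅ P.toList).count (B, A) : ℝ))]
      refine sum_subset (filter_subset _ _) fun A _ hA => ?_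
      have : (path ∅ P.toList).count (B, A) = 0 := by
        rw [List.count_eq_zero]
        intro hc
        have h1 := mem_path P.toList ∅ _ hc
        rw [mem_toList] at h1
        exact hA (mem_filter.2 ⟨mem_univ _, hP.2.1 A h1⟩)
      rw [this, Nat.cast_zero, mul_zero]
    rw [e2, sum_count, telescope 𝓕 P.toList ∅ (fun A _ => disjoint_empty_left A) ?_]
    · have hu : ∅ ∪ P.toList.foldr (· ∪ ·) ∅ = (univ : Finset (Fin (k * h))) := by
        rw [empty_union]
        ext x
        rw [mem_foldr_union]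
        simp only [mem_toList, mem_univ, iff_true]
        exact hP.2.2 x
      have hn0 : (∅ : Finset (Fin (k * h))) ≠ univ := by
        intro hc
        have : (⟨0, Nat.mul_pos (by omega) hh⟩ : Fin (k * h)) ∈ (∅ : Finset (Fin (k * h))) := by
          rw [hc]
          exact mem_univ _
        exact notMem_empty _ this
      have e3 : pot 𝓕 (univ : Finset (Fin (k * h))) = k - 1 := by
        unfold pot
        rw [if_pos rfl]
      have e4 : pot 𝓕 (∅ : Finset (Fin (k * h))) = 0 := by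
        unfold pot
        rw [if_neg hn0, pack_empty hh 𝓕 h𝓕, Nat.cast_zero]
      rw [hu, e3, e4, sum_map_toList, ← sum_filter, sum_const, nsmul_eq_mul, mul_one, sub_zero]
      congr 3
    · have h1 := hP.disjoint
      have h2 := P.nodup_toList
      refine List.Nodup.pairwise_of_forall_ne h2 ?_
      intro A hA B hB hAB
      exact h1 (mem_toList.1 hA) (mem_toList.1 hB) hAB

end SetCoverLPF
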